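import Mathlib
import Pool.Agent.U124.HQ.Stm

/-!
# Weil numbers with few relations: definitions
-/

set_option autoImplicit false

namespace Pool.Agent.U124.FT

open NumberField Module

section fields

variable {K E : Type} [Field K] [Field E]

/-- The automorphism `σ` of `ℂ` fixes all embeddings of `E` that extend neither the embedding `κ` of
`K` nor its complex conjugate. -/
def FixesOutside (κ : K →+* ℂ) (ι : K →+* E) (σ : ℂ ≃+* ℂ) : Prop :=
  ∀ θ : E →+* ℂ, θ.comp ι ≠ κ → θ.comp ι ≠ ComplexEmbedding.conjugate κ →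
    (σ : ℂ →+* ℂ).comp θ = θ

/-- The automorphisms of `ℂ` that fix all embeddings of `E` not over `κ` and its complex conjugate
are transitive on the embeddings of `E` over `κ`. -/
def IsTransitiveOver (κ : K →+* ℂ) (ι : K →+* E) : Prop :=
  ∀ φ φ' : E →+* ℂ, φ.comp ι = κ → φ'.comp ι = κ →
    ∃ σ : ℂ ≃+* ℂ, (σ : ℂ →+* ℂ).comp φ = φ' ∧ FixesOutside κ ι σ

/-- The automorphisms of `ℂ` that fix all embeddings of `E` not over `κ` and its complex conjugate
are doubly transitive on the embeddings of `E` over `κ`. -/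
def IsDoublyTransitiveOver (κ : K →+* ℂ) (ι : K →+* E) : Prop :=
  ∀ φ ψ φ' ψ' : E →+* ℂ, φ.comp ι = κ → ψ.comp ι = κ → φ'.comp ι = κ → ψ'.comp ι = κ →
    φ ≠ ψ → φ' ≠ ψ' → ∃ σ : ℂ ≃+* ℂ, (σ : ℂ →+* ℂ).comp φ = φ' ∧ (σ : ℂ →+* ℂ).comp ψ = ψ' ∧
      FixesOutside κ ι σ

end fields

end Pool.Agent.U124.FT
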