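import Mathlib
import Pool.Agent.H204R3.GP.MTDefs
import Pool.Agent.TH118.MT.Main
import Pool.Agent.Y126.Notions
import Pool.Agent.U124.FT.Def

/-!
# Abelian varieties with a Frobenius element: definitions
-/

set_option autoImplicit false

namespace Pool.Agent.U124.FT

open Module TensorProduct NumberField Pool.Agent.Y126.Notions
open Pool.Agent.H204R3.SP Pool.Agent.H204R3.GP Pool.Agent.TH118.MT

/-- An abelian variety `A` over a finitely generated field of complex numbers, with its rational
Tate module.  `W` is `H_1(A, ℚ)`, `T` the tangent space at the origin and `per : W → T` the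
inclusion, `pol` is the form on `W` given by a polarization (the real form which extends it is
invariant under the complex numbers of absolute value one).  `Γ` is the Galois group, `ρ` its action
on the rational Tate module `ℚ_ℓ ⊗ W` and `χ` the cyclotomic character.  The last two fields are the
theorems of Faltings: `ρ` is semisimple (on all subgroups of finite index), and the endomorphisms of
the Tate module that commute with a subgroup of finite index are linear combinations of
endomorphisms of `A`. -/
structure AbelianVariety (ℓ : ℕ) [Fact ℓ.Prime] where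
  W : Type
  T : Type
  Γ : Type
  [instW : AddCommGroup W]
  [instWQ : Module ℚ W]
  [instWF : FiniteDimensional ℚ W]
  [instT : AddCommGroup T]
  [instTC : Module ℂ T]
  [instΓ : Group Γ]
  per : W →+ T
  pol : W →ₗ[ℚ] W →ₗ[ℚ] ℚ
  alternating : ∀ v, pol v v = 0
  nondegenerate : ∀ u, (∀ v, pol v u = 0) → u = 0
  hodge : IsHodgeBilinear per pol
  ρ : Representation ℚ_[ℓ] Γ (ℚ_[ℓ] ⊗[ℚ] W)
  χ : Γ →* ℚ_[ℓ]
  invariant : ∀ s u v, bcb ℚ_[ℓ] pol (ρ s u) (ρ s v) = χ s * bcb ℚ_[ℓ] pol u v
  semisimple : FiniteIndexSemisimple ρ
  faltings : FaltingsEnd per (incl ℚ_[ℓ] W) ρ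

attribute [instance] AbelianVariety.instW AbelianVariety.instWQ AbelianVariety.instWF
  AbelianVariety.instT AbelianVariety.instTC AbelianVariety.instΓ

variable {ℓ : ℕ} [Fact ℓ.Prime]

/-- The action of the Galois group on the Tate module, with coefficients in an algebraic closure of
`ℚ_ℓ`. -/
noncomputable def AbelianVariety.R (A : AbelianVariety ℓ) :
    Representation (AlgebraicClosure ℚ_[ℓ]) A.Γ
      (AlgebraicClosure ℚ_[ℓ] ⊗[ℚ_[ℓ]] (ℚ_[ℓ] ⊗[ℚ] A.W)) :=
  bcr A.ρ (AlgebraicClosure ℚ_[ℓ])

/-- The cyclotomic character, with values in an algebraic closure of `ℚ_ℓ`. -/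
noncomputable def AbelianVariety.ψ (A : AbelianVariety ℓ) : A.Γ →* AlgebraicClosure ℚ_[ℓ] :=
  bcc A.χ (AlgebraicClosure ℚ_[ℓ])

/-- The Mumford-Tate conjecture for `A`: all Tate classes in the tensor powers
`(H^1)^{⊗ 2 m}(m)` are linear combinations of Hodge classes. -/
def MumfordTateHolds (A : AbelianVariety ℓ) : Prop :=
  MumfordTate A.per (incl ℚ_[ℓ] A.W) A.ρ A.χ

/-- The Mumford-Tate conjecture for `A` in the strong form: all Tate classes in the tensor powers
are linear combinations of Hodge classes that are products of Hodge classes of degree two. -/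
def MumfordTateHoldsStrongly (A : AbelianVariety ℓ) : Prop :=
  MumfordTateStrong A.per (incl ℚ_[ℓ] A.W) A.ρ A.χ

/-- The theorem on the centres of the Mumford-Tate group and of the monodromy group of `A`. -/
def CentreTheoremHolds (A : AbelianVariety ℓ) : Prop :=
  CentreTheorem A.per (Pool.Agent.TH118.MT.extend (k := ℚ_[ℓ]) (AlgebraicClosure ℚ_[ℓ])
    (incl ℚ_[ℓ] A.W)) A.R A.ψ

/-- The strongly irreducible subspaces of dimension two are symplectic. -/
def PlanesAreSymplectic (A : AbelianVariety ℓ) : Prop :=
  ∀ U, StronglyIrreducible A.R U → finrank (AlgebraicClosure ℚ_[ℓ]) U = 2 →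
    IsSymplectic A.R A.ψ U

/-- All strongly irreducible subspaces are symplectic. -/
def IsOfSymplecticType (A : AbelianVariety ℓ) : Prop :=
  ∀ U, StronglyIrreducible A.R U → IsSymplectic A.R A.ψ U

/-- The multiplicative relations between four roots of `f` and `q` are those of the pairs with the
product `q`: the square of a root is not `q`, and if the product of four roots (which may be equal)
is `q ^ 2`, up to a root of unity, then the product of the first one and one of the other three
is `q`. -/
def OnlyPairs {K : Type} [Field K] (f : Polynomial K) (q : K) : Prop :=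
  (∀ x, f.IsRoot x → x * x ≠ q) ∧
    ∀ x y z w, f.IsRoot x → f.IsRoot y → f.IsRoot z → f.IsRoot w →
      (∃ m : ℕ, 0 < m ∧ (x * y * z * w) ^ m = q ^ (2 * m)) → x * y = q ∨ x * z = q ∨ x * w = q

/-- The element `γ` (a Frobenius element at a place of good reduction) has distinct eigenvalues on
the Tate module and the relations between four of them are those of the pairs. -/
def HasOnlyPairs (A : AbelianVariety ℓ) (γ : A.Γ) : Prop :=
  (A.ρ γ).charpoly.Separable ∧
    OnlyPairs ((A.ρ γ).charpoly.map (algebraMap ℚ_[ℓ] (AlgebraicClosure ℚ_[ℓ])))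
      (algebraMap ℚ_[ℓ] (AlgebraicClosure ℚ_[ℓ]) (A.χ γ))

/-- The characteristic polynomial of `γ` on the Tate module is the minimal polynomial of `π`, and
`χ γ = q`. -/
def IsFrobeniusFor {E : Type} [Field E] [NumberField E] (A : AbelianVariety ℓ) (γ : A.Γ) (q : ℕ)
    (π : E) : Prop :=
  A.χ γ = q ∧ (A.ρ γ).charpoly = (minpoly ℚ π).map (algebraMap ℚ ℚ_[ℓ])

/-- The Weil numbers for `q` in a CM field `E` which contains the CM field `K` (by `ι`) that are
treated here: the degree `r` of `E` over `K` is at least five, or three if `K` is imaginary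
quadratic, and one of the following holds.

* No power of `π` is in `K` and `r` is a prime number and, unless `K` is imaginary quadratic, for each
  embedding `κ` of `K` the automorphisms of `ℂ` that fix the embeddings of `E` not over `κ` and its
  complex conjugate are transitive on the embeddings over `κ`.
* No power of `π` is in `K` and for each `κ` these automorphisms are doubly transitive on the
  embeddings over `κ`.
* All multiplicative relations between the conjugates of `π` and `q` are, up to pairs of complex
  conjugates, defined over `K` (for each `κ` the difference of the exponents of `φ π` and of its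
  complex conjugate is equal for all `φ` over `κ`). -/
def IsGoodOver {K E : Type} [Field K] [NumberField K] [Field E] [NumberField E] (ι : K →+* E)
    (r q : ℕ) (π : E) : Prop :=
  finrank ℚ E = finrank ℚ K * r ∧ (5 ≤ r ∨ (r = 3 ∧ finrank ℚ K = 2)) ∧
    ((HQ.Stm.NoPowerIn ι π ∧ r.Prime ∧
        (finrank ℚ K = 2 ∨ ∀ κ : K →+* ℂ, IsTransitiveOver κ ι)) ∨
      (HQ.Stm.NoPowerIn ι π ∧ ∀ κ : K →+* ℂ, IsDoublyTransitiveOver κ ι) ∨
      ∀ κ : K →+* ℂ, HQ.Stm.RelationsOver κ ι q π)

end Pool.Agent.U124.FT
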