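import Mathlib
import Pool.Agent.U124.HQ.Stm
import Pool.Agent.Q29.OS.Tower

/-!
# The lattice of the multiplicative relations between the conjugates of a Weil number
-/

set_option autoImplicit false
set_option linter.unusedSectionVars false

namespace Pool.Agent.U124.FT

open NumberField Module

noncomputable section

/-- A Weil number. -/
structure WN (E : Type) [Field E] where
  q : ℕ
  x : E
  hq : (q : ℂ) ≠ 0
  hw : ∀ φ : E →+* ℂ, φ x * ComplexEmbedding.conjugate φ x = q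

variable {E : Type} [Field E] [NumberField E]

theorem cc_emb (φ : E →+* ℂ) :
    ComplexEmbedding.conjugate (ComplexEmbedding.conjugate φ) = φ := star_star φ

theorem eig_ne (Z : WN E) (φ : E →+* ℂ) : φ Z.x ≠ 0 := by
  intro h
  have h1 := Z.hw φ
  rw [h, zero_mul] at h1
  exact Z.hq h1.symm

/-- The square of an eigenvalue, divided by `q`. -/
def un (Z : WN E) (φ : E →+* ℂ) : ℂˣ :=
  Units.mk0 (φ Z.x ^ 2 / (Z.q : ℂ)) (div_ne_zero (pow_ne_zero _ (eig_ne Z φ)) Z.hq)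

/-- The product of the normalised eigenvalues with the exponents `d`. -/
def val (Z : WN E) (d : (E →+* ℂ) → ℤ) : ℂˣ := ∏ φ, un Z φ ^ d φ

theorem val_add (Z : WN E) (d d' : (E →+* ℂ) → ℤ) : val Z (d + d') = val Z d * val Z d' := by
  unfold val
  rw [← Finset.prod_mul_distrib]
  exact Finset.prod_congr rfl fun w _ => zpow_add _ _ _

theorem val_zero (Z : WN E) : val Z 0 = 1 := by
  unfold val
  exact Finset.prod_eq_one fun w _ => zpow_zero _

theorem val_neg (Z : WN E) (d : (E →+* ℂ) → ℤ) : val Z (-d) = (val Z d)⁻¹ := by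
  rw [eq_comm, inv_eq_iff_mul_eq_one, ← val_add, add_neg_cancel, val_zero]

theorem val_nsmul (Z : WN E) (d : (E →+* ℂ) → ℤ) (n : ℕ) : val Z (n • d) = val Z d ^ n := by
  induction n with
  | zero => rw [zero_smul, val_zero, pow_zero]
  | succ n ih => rw [succ_nsmul, val_add, ih, pow_succ]

/-- The group of the relations. -/
def RelZ (Z : WN E) : AddSubgroup ((E →+* ℂ) → ℤ) where
  carrier := {d | IsOfFinOrder (val Z d)}
  zero_mem' := by
    change IsOfFinOrder (val Z 0)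
    rw [val_zero]
    exact IsOfFinOrder.one
  add_mem' := by
    intro d d' h h'
    change IsOfFinOrder (val Z (d + d'))
    rw [val_add]
    exact IsOfFinOrder.mul h h'
  neg_mem' := by
    intro d h
    change IsOfFinOrder (val Z (-d))
    rw [val_neg]
    exact IsOfFinOrder.inv h

theorem mem_RelZ {Z : WN E} {d : (E →+* ℂ) → ℤ} : d ∈ RelZ Z ↔ IsOfFinOrder (val Z d) := Iff.rfl

/-- The group of the relations is saturated. -/
theorem sat {Z : WN E} {d : (E →+* ℂ) → ℤ} {n : ℕ} (hn : n ≠ 0) (h : n • d ∈ RelZ Z) :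
    d ∈ RelZ Z := by
  rw [mem_RelZ, val_nsmul] at h
  exact IsOfFinOrder.of_pow h hn

theorem isRel_iff_mem {Z : WN E} (e : (E →+* ℂ) → ℕ) :
    HQ.Stm.IsRelation Z.q Z.x e ↔ (fun w => (e w : ℤ)) ∈ RelZ Z := by
  rw [mem_RelZ, isOfFinOrder_iff_pow_eq_one]
  unfold HQ.Stm.IsRelation
  have hval : ((val Z fun w => (e w : ℤ) : ℂˣ) : ℂ) =
      (∏ w : E →+* ℂ, w Z.x ^ e w) ^ 2 / (Z.q : ℂ) ^ (∑ w, e w) := by
    unfold val
    rw [Units.coe_prod]
    have h1 : ∀ w : E →+* ℂ, ((un Z w ^ (e w : ℤ) : ℂˣ) : ℂ) =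
        (w Z.x ^ e w) ^ 2 / (Z.q : ℂ) ^ e w := by
      intro w
      rw [zpow_natCast, Units.val_pow_eq_pow_val]
      change (w Z.x ^ 2 / (Z.q : ℂ)) ^ e w = _
      rw [div_pow, pow_right_comm]
    rw [Finset.prod_congr rfl fun w _ => h1 w, Finset.prod_div_distrib, Finset.prod_pow,
      Finset.prod_pow_eq_pow_sum]
  have hq : ∀ n : ℕ, ((Z.q : ℂ) ^ (∑ w, e w)) ^ n ≠ 0 := fun n =>
    pow_ne_zero _ (pow_ne_zero _ Z.hq)
  have key : ∀ s : ℕ, (∏ w : E →+* ℂ, w Z.x ^ e w) ^ (2 * s) = (Z.q : ℂ) ^ (s * ∑ w, e w) ↔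
      (val Z fun w => (e w : ℤ)) ^ s = 1 := by
    intro s
    rw [← Units.val_inj, Units.val_pow_eq_pow_val, hval, Units.val_one, div_pow,
      div_eq_one_iff_eq (hq s), ← pow_mul (Z.q : ℂ) (∑ w, e w) s, mul_comm (∑ w, e w) s,
      pow_mul (∏ w : E →+* ℂ, w Z.x ^ e w) 2 s]
  constructor
  · rintro ⟨s, hs, h⟩
    exact ⟨s, hs, (key s).1 h⟩
  · rintro ⟨s, hs, h⟩
    exact ⟨s, hs, (key s).2 h⟩

/-- The action of the automorphisms of `ℂ` on the embeddings. -/
def aE (σ : ℂ ≃+* ℂ) : (E →+* ℂ) ≃ (E →+* ℂ) where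
  toFun w := (σ : ℂ →+* ℂ).comp w
  invFun w := (σ.symm : ℂ →+* ℂ).comp w
  left_inv w := by
    ext x
    exact σ.symm_apply_apply _
  right_inv w := by
    ext x
    exact σ.apply_symm_apply _

theorem aE_apply (σ : ℂ ≃+* ℂ) (w : E →+* ℂ) : aE σ w = (σ : ℂ →+* ℂ).comp w := rfl

theorem un_aE (Z : WN E) (σ : ℂ ≃+* ℂ) (w : E →+* ℂ) :
    un Z (aE σ w) = Units.map (σ : ℂ →* ℂ) (un Z w) := by
  refine Units.ext ?_
  change σ (w Z.x) ^ 2 / (Z.q : ℂ) = σ (w Z.x ^ 2 / (Z.q : ℂ))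
  rw [map_div₀, map_pow, map_natCast]

theorem val_act (Z : WN E) (σ : ℂ ≃+* ℂ) (d : (E →+* ℂ) → ℤ) :
    Units.map (σ : ℂ →* ℂ) (val Z fun w => d (aE σ w)) = val Z d := by
  unfold val
  rw [map_prod]
  refine Fintype.prod_equiv (aE σ) _ _ fun w => ?_
  rw [map_zpow, un_aE]

/-- The group of the relations is stable under the automorphisms of `ℂ`. -/
theorem act_mem {Z : WN E} {d : (E →+* ℂ) → ℤ} (h : d ∈ RelZ Z) (σ : ℂ ≃+* ℂ) :
    (fun w => d (aE σ w)) ∈ RelZ Z := by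
  rw [mem_RelZ] at h ⊢
  have h1 := val_act Z σ d
  rw [← h1] at h
  exact (Function.Injective.isOfFinOrder_iff (Units.map_injective σ.injective)).1 h

/-- Symmetric exponents are relations. -/
theorem sym_mem_RelZ {Z : WN E} {f : (E →+* ℂ) → ℤ}
    (hf : ∀ w, f (ComplexEmbedding.conjugate w) = f w) : f ∈ RelZ Z := by
  have hpair : ∀ w, un Z w * un Z (ComplexEmbedding.conjugate w) = 1 := by
    intro w
    refine Units.ext ?_
    change w Z.x ^ 2 / (Z.q : ℂ) * (ComplexEmbedding.conjugate w Z.x ^ 2 / (Z.q : ℂ)) = 1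
    rw [div_mul_div_comm, ← mul_pow, Z.hw, ← sq]
    exact div_self (pow_ne_zero _ Z.hq)
  refine sat (n := 2) two_ne_zero ?_
  rw [mem_RelZ, val_nsmul]
  have h1 : val Z f = ∏ w : E →+* ℂ, un Z (ComplexEmbedding.conjugate w) ^ f w := by
    unfold val
    refine Fintype.prod_equiv (Function.Involutive.toPerm
      (fun w : E →+* ℂ => ComplexEmbedding.conjugate w) (fun w => cc_emb w)) _ _ fun w => ?_
    change un Z w ^ f w = un Z (ComplexEmbedding.conjugate (ComplexEmbedding.conjugate w)) ^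
      f (ComplexEmbedding.conjugate w)
    rw [cc_emb, hf]
  have h2 : val Z f ^ 2 = 1 := by
    rw [sq]
    nth_rewrite 2 [h1]
    unfold val
    rw [← Finset.prod_mul_distrib]
    refine Finset.prod_eq_one fun w _ => ?_
    rw [← mul_zpow, hpair, one_zpow]
  rw [h2]
  exact IsOfFinOrder.one

/-- The odd part of the exponents. -/
def odd (e : (E →+* ℂ) → ℕ) (w : E →+* ℂ) : ℤ := (e w : ℤ) - e (ComplexEmbedding.conjugate w)

theorem odd_conj (e : (E →+* ℂ) → ℕ) (w : E →+* ℂ) :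
    odd e (ComplexEmbedding.conjugate w) = -odd e w := by
  unfold odd
  rw [cc_emb]
  ring

/-- The odd part of a relation. -/
theorem odd_mem {Z : WN E} {e : (E →+* ℂ) → ℕ} (he : HQ.Stm.IsRelation Z.q Z.x e) :
    odd e ∈ RelZ Z := by
  rw [isRel_iff_mem] at he
  have h1 := act_mem he (starRingAut : ℂ ≃+* ℂ)
  exact (RelZ Z).sub_mem he h1

/-- The function that is one at `w` and zero elsewhere. -/
def dl (u w : E →+* ℂ) : ℤ := by
  classical
  exact if w = u then 1 else 0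

theorem dl_self (u : E →+* ℂ) : dl u u = 1 := if_pos rfl

theorem dl_ne {u w : E →+* ℂ} (h : w ≠ u) : dl u w = 0 := if_neg h

theorem val_dl (Z : WN E) (u : E →+* ℂ) : val Z (dl u) = un Z u := by
  classical
  unfold val
  rw [Finset.prod_eq_single u]
  · rw [dl_self, zpow_one]
  · intro w _ hw
    rw [dl_ne hw, zpow_zero]
  · intro h
    exact absurd (Finset.mem_univ u) h

/-- If the difference of two eigenvalues is a relation then they have a common power. -/
theorem pow_eq_of_dl {Z : WN E} {u v : E →+* ℂ}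
    (h : (dl u - dl v : (E →+* ℂ) → ℤ) ∈ RelZ Z) : ∃ m : ℕ, 0 < m ∧ u Z.x ^ m = v Z.x ^ m := by
  rw [mem_RelZ, sub_eq_add_neg, val_add, val_neg, val_dl, val_dl, isOfFinOrder_iff_pow_eq_one] at h
  obtain ⟨n, hn, h1⟩ := h
  refine ⟨2 * n, by omega, ?_⟩
  have h2 : un Z u ^ n = un Z v ^ n := by
    rw [mul_pow, inv_pow, mul_inv_eq_one] at h1
    exact h1
  have h3 := congrArg (fun z : ℂˣ => (z : ℂ)) h2
  change ((un Z u ^ n : ℂˣ) : ℂ) = ((un Z v ^ n : ℂˣ) : ℂ) at h3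
  rw [Units.val_pow_eq_pow_val, Units.val_pow_eq_pow_val] at h3
  change (u Z.x ^ 2 / (Z.q : ℂ)) ^ n = (v Z.x ^ 2 / (Z.q : ℂ)) ^ n at h3
  rw [div_pow, div_pow, div_left_inj' (pow_ne_zero _ Z.hq)] at h3
  rw [pow_mul, pow_mul]
  exact h3

end

end Pool.Agent.U124.FT
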