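import Mathlib
import Pool.Agent.U124.FT.Rel
import Pool.Agent.U124.FT.Def
import Pool.Agent.U124.HQ.Irr
import Pool.Agent.U124.HQ.Fact

/-!
# Fields whose relations are defined over a CM subfield
-/

set_option autoImplicit false
set_option linter.unusedSectionVars false

namespace Pool.Agent.U124.FT

open NumberField Module
open Pool.Agent.U124.HQ (Above actA permA fix_of_comp two_aux prime_aux conj_ne_K conj_comp)

noncomputable section

variable {E : Type} [Field E] [NumberField E] [IsCMField E] {K : Type} [Field K] [NumberField K]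
  [IsCMField K]

/-- The group of the permutations of the embeddings over `κ` given by the automorphisms that fix the
other embeddings. -/
def grpL (κ : K →+* ℂ) (ι : K →+* E) : Subgroup (Equiv.Perm (Above κ ι)) where
  carrier := {π | ∃ (σ : ℂ ≃+* ℂ) (hσ : ∀ x, σ (κ x) = κ x), FixesOutside κ ι σ ∧
    π = permA κ ι σ hσ}
  one_mem' := ⟨RingEquiv.refl ℂ, fun _ => rfl, fun _ _ _ => rfl, rfl⟩
  mul_mem' := by
    rintro _ _ ⟨σ, hσ, h, rfl⟩ ⟨τ, hτ, h', rfl⟩
    refine ⟨τ.trans σ, fun x => by rw [RingEquiv.trans_apply, hτ, hσ], fun θ h1 h2 => ?_, rfl⟩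
    have h3 := h θ h1 h2
    have h4 := h' θ h1 h2
    ext x
    change σ (τ (θ x)) = θ x
    have h5 : τ (θ x) = θ x := RingHom.congr_fun h4 x
    rw [h5]
    exact RingHom.congr_fun h3 x
  inv_mem' := by
    rintro _ ⟨σ, hσ, h, rfl⟩
    refine ⟨σ.symm, fun x => by rw [RingEquiv.symm_apply_eq, hσ], fun θ h1 h2 => ?_, rfl⟩
    have h3 := h θ h1 h2
    ext x
    change σ.symm (θ x) = θ x
    rw [RingEquiv.symm_apply_eq]
    exact (RingHom.congr_fun h3 x).symm

/-- Each subspace of the functions on the embeddings over `κ` which is stable under this group and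
contains a nonconstant function contains all functions with the sum zero. -/
def IsSimpleL (κ : K →+* ℂ) (ι : K →+* E) : Prop :=
  ∀ W : Submodule ℚ (Above κ ι → ℚ),
    (∀ (σ : ℂ ≃+* ℂ) (hσ : ∀ x, σ (κ x) = κ x), FixesOutside κ ι σ →
      ∀ f ∈ W, (fun φ => f (actA κ ι σ hσ φ)) ∈ W) →
    (∃ f ∈ W, ∃ φ ψ, f φ ≠ f ψ) → ∀ f : Above κ ι → ℚ, ∑ᶠ φ, f φ = 0 → f ∈ W

omit [IsCMField E] [NumberField K] [IsCMField K] in
theorem isSimpleL_of_two (κ : K →+* ℂ) (ι : K →+* E) (h : IsDoublyTransitiveOver κ ι) :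
    IsSimpleL κ ι := by
  classical
  rintro W hW ⟨f, hf, φ, ψ, hne⟩ g hg
  rw [finsum_eq_sum_of_fintype] at hg
  refine two_aux (grpL κ ι) ?_ W ?_ f hf φ ψ hne g hg
  · intro x y x' y' hxy hxy'
    obtain ⟨σ, h1, h2, h3⟩ := h x.1 y.1 x'.1 y'.1 x.2 y.2 x'.2 y'.2
      (fun h => hxy (Subtype.ext h)) fun h => hxy' (Subtype.ext h)
    have hσ := fix_of_comp (φ := x) (ψ := x') h1
    exact ⟨permA κ ι σ hσ, ⟨σ, hσ, h3, rfl⟩, Subtype.ext h1, Subtype.ext h2⟩
  · rintro _ ⟨σ, hσ, h3, rfl⟩ b hb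
    exact hW σ hσ h3 b hb

open Classical in
theorem card_above (κ : K →+* ℂ) (ι : K →+* E) {r : ℕ} (hdeg : finrank ℚ E = finrank ℚ K * r) :
    Fintype.card (Above κ ι) = r := by
  let _ : Algebra K E := ι.toAlgebra
  rw [Fintype.card_subtype]
  have h1 := Pool.Agent.H977R3.CM.fibre_card (E₀ := K) (E := E) κ
  have h2 : finrank K E = r := by
    have h3 := finrank_mul_finrank ℚ K E
    rw [hdeg] at h3
    exact Nat.eq_of_mul_eq_mul_left finrank_pos h3
  rw [h2] at h1
  exact h1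

theorem isSimpleL_of_prime (κ : K →+* ℂ) (ι : K →+* E) {r : ℕ} (hr : r.Prime)
    (hdeg : finrank ℚ E = finrank ℚ K * r) (h : IsTransitiveOver κ ι) : IsSimpleL κ ι := by
  classical
  rintro W hW ⟨f, hf, φ, ψ, hne⟩ b hb
  rw [finsum_eq_sum_of_fintype] at hb
  refine prime_aux (grpL κ ι) (by rw [card_above κ ι hdeg]; exact hr) ?_ W ?_ f hf φ ψ hne b hb
  · intro x y
    obtain ⟨σ, h1, h3⟩ := h x.1 y.1 x.2 y.2
    have hσ := fix_of_comp (φ := x) (ψ := y) h1
    exact ⟨_, ⟨σ, hσ, h3, rfl⟩, Subtype.ext h1⟩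
  · rintro _ ⟨σ, hσ, h3, rfl⟩ c hc
    exact hW σ hσ h3 c hc

/-- The embedding extends `κ` or its complex conjugate. -/
def Near (κ : K →+* ℂ) (ι : K →+* E) (θ : E →+* ℂ) : Prop :=
  θ.comp ι = κ ∨ θ.comp ι = ComplexEmbedding.conjugate κ

theorem near_conj {κ : K →+* ℂ} {ι : K →+* E} {θ : E →+* ℂ} :
    Near κ ι (ComplexEmbedding.conjugate θ) ↔ Near κ ι θ := by
  unfold Near
  rw [conj_comp]
  have h1 : ∀ τ : K →+* ℂ, ComplexEmbedding.conjugate τ = κ ↔ τ = ComplexEmbedding.conjugate κ := by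
    intro τ
    constructor
    · rintro rfl
      exact (star_star τ).symm
    · rintro rfl
      exact star_star κ
  have h2 : ∀ τ : K →+* ℂ, ComplexEmbedding.conjugate τ = ComplexEmbedding.conjugate κ ↔ τ = κ := by
    intro τ
    constructor
    · intro h
      have h3 := congrArg ComplexEmbedding.conjugate h
      have h4 : ComplexEmbedding.conjugate (ComplexEmbedding.conjugate τ) = τ := star_star τ
      have h5 : ComplexEmbedding.conjugate (ComplexEmbedding.conjugate κ) = κ := star_star κ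
      rwa [h4, h5] at h3
    · rintro rfl
      rfl
  rw [h1, h2]
  exact or_comm

/-- The space of the functions on the embeddings over `κ` that are proportional to antisymmetric
relations which are zero on the embeddings not over `κ` and its complex conjugate. -/
def WS (Z : WN E) (κ : K →+* ℂ) (ι : K →+* E) : Submodule ℚ (Above κ ι → ℚ) where
  carrier := {f | ∃ n : ℕ, n ≠ 0 ∧ ∃ b ∈ RelZ Z, (∀ w, ¬ Near κ ι w → b w = 0) ∧
    (∀ w, b (ComplexEmbedding.conjugate w) = -b w) ∧ ∀ x : Above κ ι, (n : ℚ) * f x = b x.1}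
  zero_mem' := ⟨1, one_ne_zero, 0, (RelZ Z).zero_mem, fun _ _ => rfl, fun _ => neg_zero.symm,
    fun _ => by simp⟩
  add_mem' := by
    rintro f f' ⟨n, hn, b, hb, h1, h2, h3⟩ ⟨n', hn', b', hb', h1', h2', h3'⟩
    refine ⟨n * n', mul_ne_zero hn hn', n' • b + n • b',
      (RelZ Z).add_mem ((RelZ Z).nsmul_mem hb _) ((RelZ Z).nsmul_mem hb' _), ?_, ?_, ?_⟩
    · intro w hw
      simp [h1 w hw, h1' w hw]
    · intro w
      change n' • b (ComplexEmbedding.conjugate w) + n • b' (ComplexEmbedding.conjugate w) =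
        -(n' • b w + n • b' w)
      rw [h2, h2', nsmul_eq_mul, nsmul_eq_mul, nsmul_eq_mul, nsmul_eq_mul]
      ring
    · intro x
      have e1 := h3 x
      have e2 := h3' x
      change ((n * n' : ℕ) : ℚ) * (f x + f' x) =
        ((n' • b x.1 + n • b' x.1 : ℤ) : ℚ)
      rw [nsmul_eq_mul, nsmul_eq_mul]
      push_cast
      rw [← e1, ← e2]
      ring
  smul_mem' := by
    rintro c f ⟨n, hn, b, hb, h1, h2, h3⟩
    refine ⟨n * c.den, mul_ne_zero hn c.den_ne_zero, c.num • b, (RelZ Z).zsmul_mem hb _, ?_, ?_,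
      ?_⟩
    · intro w hw
      simp [h1 w hw]
    · intro w
      simp only [Pi.smul_apply, h2, smul_eq_mul]
      ring
    · intro x
      have e1 := h3 x
      simp only [Pi.smul_apply, smul_eq_mul]
      push_cast
      rw [← e1]
      have e2 : (c.den : ℚ) * c = c.num := by
        rw [mul_comm]
        exact Rat.mul_den_eq_num c
      rw [← e2]
      ring

theorem near_aE {κ : K →+* ℂ} {ι : K →+* E} {σ : ℂ ≃+* ℂ} (hσ : ∀ x, σ (κ x) = κ x)
    {θ : E →+* ℂ} (h : Near κ ι (aE σ θ)) : Near κ ι θ := by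
  have key : ∀ θ : E →+* ℂ, (aE σ θ).comp ι = κ → θ.comp ι = κ := by
    intro θ h
    ext x
    apply σ.injective
    rw [hσ]
    exact RingHom.congr_fun h x
  rcases h with h | h
  · exact Or.inl (key θ h)
  · rw [← near_conj]
    left
    apply key
    have h4 : aE σ (ComplexEmbedding.conjugate θ) = ComplexEmbedding.conjugate (aE σ θ) :=
      Pool.Agent.Q29.OS.comp_conj σ θ
    rw [h4, conj_comp, h]
    exact star_star κ

theorem WS_stable (Z : WN E) (κ : K →+* ℂ) (ι : K →+* E) (σ : ℂ ≃+* ℂ)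
    (hσ : ∀ x, σ (κ x) = κ x) (f : Above κ ι → ℚ) (hf : f ∈ WS Z κ ι) :
    (fun φ => f (actA κ ι σ hσ φ)) ∈ WS Z κ ι := by
  obtain ⟨n, hn, b, hb, h1, h2, h3⟩ := hf
  refine ⟨n, hn, fun w => b (aE σ w), act_mem hb σ, fun w hw => h1 _ fun h => hw (near_aE hσ h),
    fun w => ?_, fun x => h3 (actA κ ι σ hσ x)⟩
  have h4 : aE σ (ComplexEmbedding.conjugate w) = ComplexEmbedding.conjugate (aE σ w) :=
    Pool.Agent.Q29.OS.comp_conj σ w
  change b (aE σ (ComplexEmbedding.conjugate w)) = _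
  rw [h4, h2]

/-- If the representation on the functions on the embeddings over `κ` has only one
nonconstant component and no power of the Weil number belongs to `K`, then all
relations are defined over `K`. -/
theorem relationsOver_of_simple (Z : WN E) (κ : K →+* ℂ) (ι : K →+* E)
    (htr : IsTransitiveOver κ ι)
    (hs : IsSimpleL κ ι) (hπ : HQ.Stm.NoPowerIn ι Z.x) : HQ.Stm.RelationsOver κ ι Z.q Z.x := by
  classical
  intro e he φ ψ hφ hψ
  change odd e φ = odd e ψ
  by_contra hne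
  obtain ⟨σ, hσ1, hσ2⟩ := htr φ ψ hφ hψ
  have hσ := fix_of_comp (φ := (⟨φ, hφ⟩ : Above κ ι)) (ψ := ⟨ψ, hψ⟩) hσ1
  obtain ⟨g, hg⟩ : ∃ g : (E →+* ℂ) → ℤ, g = odd e - fun w => odd e (aE σ w) := ⟨_, rfl⟩
  have hgm : g ∈ RelZ Z := by
    rw [hg]
    exact (RelZ Z).sub_mem (odd_mem he) (act_mem (odd_mem he) σ)
  have hga : ∀ w, g (ComplexEmbedding.conjugate w) = -g w := by
    intro w
    rw [hg]
    change odd e (ComplexEmbedding.conjugate w) - odd e (aE σ (ComplexEmbedding.conjugate w)) =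
      -(odd e w - odd e (aE σ w))
    have h4 : aE σ (ComplexEmbedding.conjugate w) = ComplexEmbedding.conjugate (aE σ w) :=
      Pool.Agent.Q29.OS.comp_conj σ w
    rw [h4, odd_conj, odd_conj]
    ring
  have hgo : ∀ w, ¬ Near κ ι w → g w = 0 := by
    intro w hw
    have h1 : aE σ w = w := hσ2 w (fun h => hw (Or.inl h)) fun h => hw (Or.inr h)
    rw [hg]
    change odd e w - odd e (aE σ w) = 0
    rw [h1, sub_self]
  have hgs : ∑ x : Above κ ι, g x.1 = 0 := by
    have h1 : ∀ x : Above κ ι, g x.1 = odd e x.1 - odd e (permA κ ι σ hσ x).1 := by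
      intro x
      rw [hg]
      rfl
    rw [Finset.sum_congr rfl fun x _ => h1 x, Finset.sum_sub_distrib,
      Equiv.sum_comp (permA κ ι σ hσ) fun x : Above κ ι => odd e x.1, sub_self]
  have hgφ : g φ ≠ 0 := by
    have h1 : g φ = odd e φ - odd e ψ := by
      rw [hg]
      change odd e φ - odd e (aE σ φ) = _
      rw [aE_apply, hσ1]
    rw [h1]
    exact sub_ne_zero.2 hne
  obtain ⟨ψ', hψ'⟩ : ∃ ψ' : Above κ ι, g ψ'.1 ≠ g φ := by
    by_contra hcon
    push Not at hcon
    rw [Finset.sum_congr rfl fun x _ => hcon x, Finset.sum_const, Finset.card_univ,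
      nsmul_eq_mul] at hgs
    have _ : Nonempty (Above κ ι) := ⟨⟨φ, hφ⟩⟩
    rcases mul_eq_zero.1 hgs with h8 | h8
    · exact absurd h8 (Nat.cast_ne_zero.2 Fintype.card_ne_zero)
    · exact hgφ h8
  obtain ⟨x, y, hxy⟩ := HQ.exists_pair κ ι Z.x hπ
  have hmem := hs (WS Z κ ι) (fun σ hσ _ f hf => WS_stable Z κ ι σ hσ f hf)
    ⟨fun z => (g z.1 : ℚ), ⟨1, one_ne_zero, g, hgm, hgo, hga,
      fun z => by rw [Nat.cast_one, one_mul]⟩, ψ', ⟨φ, hφ⟩, fun h => hψ' ?_⟩
    (Pi.single x 1 - Pi.single y 1) ?_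
  rotate_left
  · have h' : (g ψ'.1 : ℚ) = (g φ : ℚ) := h
    exact_mod_cast h'
  · rw [finsum_eq_sum_of_fintype]
    simp
  obtain ⟨n, hn, b, hb, h1, h2, h3⟩ := hmem
  obtain ⟨u, hu⟩ : ∃ u : E →+* ℂ, u = x.1 := ⟨_, rfl⟩
  obtain ⟨v, hv⟩ : ∃ v : E →+* ℂ, v = y.1 := ⟨_, rfl⟩
  let c : (E →+* ℂ) → ℤ := fun w => dl u w - dl v w -
    (dl u (ComplexEmbedding.conjugate w) - dl v (ComplexEmbedding.conjugate w))
  have hover : ∀ (z : Above κ ι) (θ : E →+* ℂ), θ.comp ι = κ →
      dl z.1 (ComplexEmbedding.conjugate θ) = 0 := by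
    intro z θ hθ
    refine dl_ne fun h => ?_
    have h5 : (ComplexEmbedding.conjugate θ).comp ι = κ := by rw [h, z.2]
    rw [conj_comp, hθ] at h5
    exact conj_ne_K κ h5
  have hdl : ∀ (z : Above κ ι) (θ : Above κ ι),
      (dl z.1 θ.1 : ℚ) = (Pi.single z 1 : Above κ ι → ℚ) θ := by
    intro z θ
    by_cases h : θ = z
    · rw [h, dl_self, Pi.single_eq_same]
      norm_num
    · rw [Pi.single_eq_of_ne h, dl_ne fun h' => h (Subtype.ext h')]
      norm_num
  have hcκ : ∀ θ : E →+* ℂ, θ.comp ι = κ → b θ = n * c θ := by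
    intro θ hθ
    have h4 := h3 ⟨θ, hθ⟩
    have h5 : c θ = dl u θ - dl v θ := by
      change _ - (dl u (ComplexEmbedding.conjugate θ) - dl v (ComplexEmbedding.conjugate θ)) = _
      rw [hu, hv, hover x θ hθ, hover y θ hθ, sub_zero, sub_zero]
    have h6 : (b θ : ℚ) = ((n * c θ : ℤ) : ℚ) := by
      rw [← h4, h5, hu, hv]
      push_cast
      rw [hdl x ⟨θ, hθ⟩, hdl y ⟨θ, hθ⟩, Pi.sub_apply]
    exact_mod_cast h6
  have hcanti : ∀ w, c (ComplexEmbedding.conjugate w) = -c w := by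
    intro w
    change dl u (ComplexEmbedding.conjugate w) - dl v (ComplexEmbedding.conjugate w) -
      (dl u (ComplexEmbedding.conjugate (ComplexEmbedding.conjugate w)) -
        dl v (ComplexEmbedding.conjugate (ComplexEmbedding.conjugate w))) =
      -(dl u w - dl v w -
        (dl u (ComplexEmbedding.conjugate w) - dl v (ComplexEmbedding.conjugate w)))
    rw [cc_emb]
    ring
  have hbc : b = n • c := by
    funext θ
    rw [Pi.smul_apply, nsmul_eq_mul]
    by_cases hθ : θ.comp ι = κ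
    · exact hcκ θ hθ
    by_cases hθ' : θ.comp ι = ComplexEmbedding.conjugate κ
    · have h8 : (ComplexEmbedding.conjugate θ).comp ι = κ := by
        rw [conj_comp, hθ', cc_emb]
      have h9 : b (ComplexEmbedding.conjugate θ) = n * c (ComplexEmbedding.conjugate θ) :=
        hcκ _ h8
      rw [h2, hcanti] at h9
      linarith
    · have hfar : ¬ Near κ ι θ := fun h => h.elim hθ hθ'
      have hfar' : ¬ Near κ ι (ComplexEmbedding.conjugate θ) := fun h => hfar (near_conj.1 h)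
      have h7 : ∀ (z : Above κ ι) (w : E →+* ℂ), ¬ Near κ ι w → dl z.1 w = 0 := fun z w hw =>
        dl_ne fun h => hw (Or.inl (by rw [h, z.2]))
      rw [h1 θ hfar]
      change (0 : ℤ) = n * (dl u θ - dl v θ -
        (dl u (ComplexEmbedding.conjugate θ) - dl v (ComplexEmbedding.conjugate θ)))
      rw [hu, hv, h7 x θ hfar, h7 y θ hfar, h7 x _ hfar', h7 y _ hfar']
      ring
  rw [hbc] at hb
  have hcm := sat hn hb
  have hmem2 : (dl u - dl v : (E →+* ℂ) → ℤ) ∈ RelZ Z := by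
    refine sat (n := 2) two_ne_zero ?_
    have h10 : (2 • (dl u - dl v) : (E →+* ℂ) → ℤ) =
        c + fun w => dl u w + dl u (ComplexEmbedding.conjugate w) - dl v w -
          dl v (ComplexEmbedding.conjugate w) := by
      funext w
      change 2 • (dl u w - dl v w) = dl u w - dl v w -
        (dl u (ComplexEmbedding.conjugate w) - dl v (ComplexEmbedding.conjugate w)) +
        (dl u w + dl u (ComplexEmbedding.conjugate w) - dl v w -
          dl v (ComplexEmbedding.conjugate w))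
      rw [nsmul_eq_mul]
      push_cast
      ring
    rw [h10]
    refine (RelZ Z).add_mem hcm (sym_mem_RelZ fun w => ?_)
    rw [cc_emb]
    ring
  obtain ⟨m, hm, h11⟩ := pow_eq_of_dl hmem2
  rw [hu, hv] at h11
  exact hxy m hm h11

end

end Pool.Agent.U124.FT
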