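import Mathlib
import Pool.Agent.U124.FT.Over

/-!
# Relations between four conjugates of a Weil number
-/

set_option autoImplicit false
set_option linter.unusedSectionVars false

namespace Pool.Agent.U124.FT

open NumberField Module
open Pool.Agent.U124.HQ (Above conj_ne_K conj_comp)

noncomputable section

variable {E : Type} [Field E] [NumberField E] [IsCMField E] {K : Type} [Field K] [NumberField K]
  [IsCMField K]

/-- Relations of length four have no odd part. -/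
theorem odd_zero (Z : WN E) (ι : K →+* E) {r : ℕ} (hdeg : finrank ℚ E = finrank ℚ K * r)
    (hr : 5 ≤ r ∨ (r = 3 ∧ finrank ℚ K = 2))
    (hrel : ∀ κ : K →+* ℂ, HQ.Stm.RelationsOver κ ι Z.q Z.x) {e : (E →+* ℂ) → ℕ}
    (he : HQ.Stm.IsRelation Z.q Z.x e) (h4 : ∑ φ, e φ = 4) (φ : E →+* ℂ) : odd e φ = 0 := by
  classical
  obtain ⟨κ, hκ⟩ : ∃ κ : K →+* ℂ, κ = φ.comp ι := ⟨_, rfl⟩
  obtain ⟨t, ht⟩ : ∃ t, t = odd e φ := ⟨_, rfl⟩
  have hconst : ∀ ψ : E →+* ℂ, ψ.comp ι = κ → odd e ψ = t := fun ψ hψ => by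
    rw [ht]
    exact hrel κ e he ψ φ hψ hκ.symm
  let S : Finset (E →+* ℂ) := Finset.univ.filter fun ψ => ψ.comp ι = κ
  have hS : ∀ ψ, ψ ∈ S ↔ ψ.comp ι = κ := fun ψ => by simp [S]
  have hcard : S.card = r := by
    have h1 := card_above κ ι hdeg
    rw [Fintype.card_subtype] at h1
    exact h1
  let S' : Finset (E →+* ℂ) := S.image fun ψ => ComplexEmbedding.conjugate ψ
  have hdisj : Disjoint S S' := by
    rw [Finset.disjoint_left]
    intro ψ h1 h2
    obtain ⟨θ, h3, rfl⟩ := Finset.mem_image.1 h2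
    rw [hS] at h1 h3
    rw [conj_comp, h3] at h1
    exact conj_ne_K κ h1
  have hsum' : ∑ ψ ∈ S', e ψ = ∑ ψ ∈ S, e (ComplexEmbedding.conjugate ψ) := by
    refine Finset.sum_image fun a _ b _ h => ?_
    have h1 := congrArg ComplexEmbedding.conjugate h
    rwa [cc_emb, cc_emb] at h1
  have hle : ∑ ψ ∈ S, e ψ + ∑ ψ ∈ S, e (ComplexEmbedding.conjugate ψ) ≤ 4 := by
    rw [← hsum', ← Finset.sum_union hdisj, ← h4]
    exact Finset.sum_le_sum_of_subset (Finset.subset_univ _)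
  have hone : ∑ ψ ∈ S, odd e ψ = r * t := by
    rw [Finset.sum_congr rfl fun ψ hψ => hconst ψ ((hS ψ).1 hψ), Finset.sum_const, hcard,
      nsmul_eq_mul]
  unfold odd at hone
  rw [Finset.sum_sub_distrib] at hone
  obtain ⟨A, hA⟩ : ∃ A : ℕ, A = ∑ ψ ∈ S, e ψ := ⟨_, rfl⟩
  obtain ⟨B, hB⟩ : ∃ B : ℕ, B = ∑ ψ ∈ S, e (ComplexEmbedding.conjugate ψ) := ⟨_, rfl⟩
  have hA' : ∑ ψ ∈ S, (e ψ : ℤ) = A := by rw [hA]; push_cast; rfl
  have hB' : ∑ ψ ∈ S, (e (ComplexEmbedding.conjugate ψ) : ℤ) = B := by rw [hB]; push_cast; rfl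
  rw [← hA, ← hB] at hle
  rw [hA', hB'] at hone
  rw [← ht]
  rcases hr with hr | ⟨hr, hK⟩
  · by_contra h0
    have h1 : (5 : ℤ) ≤ |(r : ℤ) * t| := by
      rw [abs_mul, Nat.abs_cast]
      have h2 : 1 ≤ |t| := Int.one_le_abs h0
      have h3 : (5 : ℤ) ≤ r := by exact_mod_cast hr
      nlinarith
    rw [← hone] at h1
    have h2 : |(A : ℤ) - B| ≤ A + B := by
      rw [abs_le]
      constructor <;> omega
    omega
  · have huniv : S ∪ S' = Finset.univ := by
      rw [Finset.eq_univ_iff_forall]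
      intro ψ
      rw [Finset.mem_union]
      rcases Pool.Agent.Q29.OS.embedding_quadratic hK κ (ψ.comp ι) with h | h
      · exact Or.inl ((hS ψ).2 h)
      · refine Or.inr (Finset.mem_image.2 ⟨ComplexEmbedding.conjugate ψ, (hS _).2 ?_, cc_emb ψ⟩)
        rw [conj_comp, h]
        exact star_star κ
    have heq : A + B = 4 := by
      rw [hA, hB, ← hsum', ← Finset.sum_union hdisj, huniv, h4]
    rw [hr] at hone
    push_cast at hone
    omega

/-- If the product of four conjugates is a square root of `q ^ 4`, up to a root of unity, then the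
first one is the complex conjugate of one of the others. -/
theorem four (Z : WN E) (ι : K →+* E) {r : ℕ} (hdeg : finrank ℚ E = finrank ℚ K * r)
    (hr : 5 ≤ r ∨ (r = 3 ∧ finrank ℚ K = 2))
    (hrel : ∀ κ : K →+* ℂ, HQ.Stm.RelationsOver κ ι Z.q Z.x) (f : Fin 4 → (E →+* ℂ)) {m : ℕ}
    (hm : 0 < m) (h : (∏ i, f i Z.x) ^ m = (Z.q : ℂ) ^ (2 * m)) :
    ∃ i, i ≠ 0 ∧ f i = ComplexEmbedding.conjugate (f 0) := by
  classical
  let e : (E →+* ℂ) → ℕ := fun φ => ∑ i, if f i = φ then 1 else 0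
  have hs : ∑ φ, e φ = 4 := by
    rw [Finset.sum_comm]
    simp
  have hp : ∏ φ : E →+* ℂ, φ Z.x ^ e φ = ∏ i, f i Z.x := by
    have h1 : ∀ φ : E →+* ℂ, φ Z.x ^ e φ = ∏ i, φ Z.x ^ (if f i = φ then 1 else 0) := fun φ =>
      (Finset.prod_pow_eq_pow_sum _ _ _).symm
    rw [Finset.prod_congr rfl fun φ _ => h1 φ, Finset.prod_comm]
    refine Finset.prod_congr rfl fun i _ => ?_
    rw [Finset.prod_eq_single (f i)]
    · rw [if_pos rfl, pow_one]
    · intro φ _ hφ
      rw [if_neg (Ne.symm hφ), pow_zero]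
    · intro h
      exact absurd (Finset.mem_univ _) h
  have hrl : HQ.Stm.IsRelation Z.q Z.x e := by
    refine ⟨m, hm, ?_⟩
    rw [hp, hs, mul_comm 2 m, pow_mul, h, ← pow_mul]
    congr 1
    ring
  have h0 := odd_zero Z ι hdeg hr hrel hrl hs (f 0)
  unfold odd at h0
  have h1 : 1 ≤ e (f 0) := by
    have h2 : (if f 0 = f 0 then 1 else 0) ≤ e (f 0) :=
      Finset.single_le_sum (f := fun i => if f i = f 0 then 1 else 0)
        (fun _ _ => Nat.zero_le _) (Finset.mem_univ (0 : Fin 4))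
    rwa [if_pos rfl] at h2
  have h3 : e (ComplexEmbedding.conjugate (f 0)) ≠ 0 := by omega
  obtain ⟨i, -, hi⟩ := Finset.exists_ne_zero_of_sum_ne_zero h3
  have h4 : f i = ComplexEmbedding.conjugate (f 0) := by
    by_contra h5
    exact hi (if_neg h5)
  refine ⟨i, ?_, h4⟩
  rintro rfl
  exact conj_ne_K (f 0) h4.symm

end

end Pool.Agent.U124.FT
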