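import Mathlib
import Pool.Agent.Y126.Notions

/-!
# One Frobenius element with simple ratios of eigenvalues: definitions
-/

set_option autoImplicit false

namespace Pool.Agent.U124.FT

open Module Pool.Agent.Y126.Notions

variable {K X Γ : Type} [Field K] [AddCommGroup X] [Module K X] [Group Γ]

/-- The number of the pairs of indices `k`, `l` such that `c k / c l` is equal to `x` up to a root of
unity. -/
noncomputable def occurrences {d : ℕ} (c : Fin d → Kˣ) (x : Kˣ) : ℕ :=
  Nat.card {q : Fin d × Fin d // IsOfFinOrder (c q.1 / c q.2 / x)}

/-- There is an element `F` of the group (for instance a Frobenius element at a place of good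
reduction) which is diagonalizable on `X`, with the eigenvalues `a i`, and on `U`, with the
eigenvalues `c i`, and there is an eigenvalue `c i₀` on `U` such that each of the ratios
`x = c j / c i₀`, with `j ≠ i₀`, has the following properties:

* it is not a root of unity;
* there are no three eigenvalues `a k`, `a l`, `a m` on `X` such that `a l / a k` and `a m / a l` are
  equal to `x` up to roots of unity;
* it occurs only once as a ratio of eigenvalues on `U`, up to roots of unity, or `U` is symplectic
  and it occurs at most twice. -/
def HasSimpleRatios (R : Representation K Γ X) (χ : Γ →* K) (U : Submodule K X) : Prop :=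
  ∃ (F : Γ) (n : ℕ) (b : Basis (Fin n) K X) (a : Fin n → Kˣ) (d : ℕ) (u : Basis (Fin d) K U)
    (c : Fin d → Kˣ) (i₀ : Fin d),
    (∀ i, R F (b i) = (a i : K) • b i) ∧ (∀ i, R F (u i : X) = (c i : K) • (u i : X)) ∧
    ∀ j, j ≠ i₀ → ¬ IsOfFinOrder (c j / c i₀) ∧
      (∀ k l m, ¬ (IsOfFinOrder (a l / a k / (c j / c i₀)) ∧
        IsOfFinOrder (a m / a l / (c j / c i₀)))) ∧
      (occurrences c (c j / c i₀) ≤ 1 ∨
        (occurrences c (c j / c i₀) ≤ 2 ∧ IsSymplectic R χ U))

end Pool.Agent.U124.FT
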