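import Mathlib
import Pool.Agent.R855.MT.One
import Pool.Agent.U124.FT.Stm

/-!
# Square-zero elements of rank one from one Frobenius element
-/

set_option autoImplicit false
set_option linter.unusedSectionVars false

namespace Pool.Agent.U124.FT

open Module TensorProduct Pool.Agent.Y126.Notions
open Pool.Agent.H204R3.SP Pool.Agent.H204R3.GP Pool.Agent.W522.U
open Pool.Agent.W528.Odd Pool.Agent.Y126.OT Pool.Agent.TH118.CR Pool.Agent.Y126.Toric
open Pool.Agent.R855.MT (gradingOperator component component_mem grading_mem IsGrading)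

noncomputable section

/-- A homomorphism that does not vanish at finitely many elements of infinite order. -/
theorem exists_add_finset {K : Type} [Field K] [CharZero K] (S : Finset Kˣ)
    (hS : ∀ x ∈ S, ¬ IsOfFinOrder x) :
    ∃ w : Additive Kˣ →+ K, ∀ x ∈ S, w (Additive.ofMul x) ≠ 0 := by
  classical
  induction S using Finset.induction_on with
  | empty => exact ⟨0, fun x hx => absurd hx (Finset.notMem_empty x)⟩
  | insert x S hx ih =>
    obtain ⟨w, hw⟩ := ih fun y hy => hS y (Finset.mem_insert_of_mem hy)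
    obtain ⟨w', hw'⟩ := exists_add x (by
      intro k hk h
      exact hS x (Finset.mem_insert_self _ _) (isOfFinOrder_iff_pow_eq_one.2 ⟨k, hk, h⟩))
    obtain ⟨t, ht⟩ := Infinite.exists_notMem_finset
      ((insert x S).image fun y => -(w (Additive.ofMul y)) / w' (Additive.ofMul y))
    refine ⟨w + (AddMonoidHom.mulLeft t).comp w', fun y hy h => ?_⟩
    have h1 : w (Additive.ofMul y) + t * w' (Additive.ofMul y) = 0 := h
    by_cases h2 : w' (Additive.ofMul y) = 0
    · rw [h2, mul_zero, add_zero] at h1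
      rcases Finset.mem_insert.1 hy with rfl | hy'
      · exact hw' h2
      · exact hw y hy' h1
    · apply ht
      refine Finset.mem_image.2 ⟨y, hy, ?_⟩
      rw [div_eq_iff h2]
      linear_combination -h1

section
variable {K : Type} [Field K] [CharZero K] {X : Type} [AddCommGroup X] [Module K X]
  [FiniteDimensional K X] {Γ : Type} [Group Γ] {R : Representation K Γ X} {χ : Γ →* K}

/-- The eigenvalues of the basis vectors that occur in an eigenvector. -/
theorem eig_of_repr {n : ℕ} (F : Γ) (b : Basis (Fin n) K X) (a : Fin n → Kˣ)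
    (hF : ∀ k, R F (b k) = (a k : K) • b k) (c : Kˣ) {u : X} (hu : R F u = (c : K) • u)
    {k : Fin n} (hk : b.repr u k ≠ 0) : a k = c := by
  have h2 : R F u = ∑ k, (b.repr u k * (a k : K)) • b k := by
    conv_lhs => rw [← b.sum_repr u]
    rw [map_sum]
    refine Finset.sum_congr rfl fun k _ => ?_
    rw [map_smul, hF, smul_smul]
  have h3 : b.repr (R F u) k = b.repr u k * (a k : K) := by
    rw [h2, Basis.repr_sum_self]
  rw [hu, map_smul, Finsupp.smul_apply, smul_eq_mul] at h3
  have h4 : b.repr u k * ((a k : K) - (c : K)) = 0 := by linear_combination -h3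
  rcases mul_eq_zero.1 h4 with h5 | h5
  · exact absurd h5 hk
  · exact Units.ext (sub_eq_zero.1 h5)

open Classical in
theorem component_repr {n : ℕ} (b : Basis (Fin n) K X) (s : Fin n → K) (D : K)
    (y : Module.End K X) {t : K} {v : X} (hv : ∀ i, b.repr v i ≠ 0 → s i = t) (i : Fin n) :
    b.repr (component b s D y v) i = if s i = t + D then b.repr (y v) i else 0 := by
  classical
  have h1 : b.repr (component b s D y v) i =
      ∑ j, (if s i = s j + D then LinearMap.toMatrix b b y i j else 0) * b.repr v j := by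
    unfold component
    rw [Matrix.toLin_apply, Basis.repr_sum_self]
    rfl
  have h2 : b.repr (y v) i = ∑ j, LinearMap.toMatrix b b y i j * b.repr v j := by
    have h3 := LinearMap.toMatrix_mulVec_repr b b y v
    have h4 := congrFun h3 i
    rw [← h4]
    rfl
  rw [h1]
  split_ifs with h
  · rw [h2]
    refine Finset.sum_congr rfl fun j _ => ?_
    by_cases hj : b.repr v j = 0
    · rw [hj, mul_zero, mul_zero]
    · rw [if_pos (by rw [h, hv j hj])]
  · refine Finset.sum_eq_zero fun j _ => ?_
    by_cases hj : b.repr v j = 0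
    · rw [hj, mul_zero]
    · rw [if_neg (by rw [hv j hj]; exact h), zero_mul]

theorem component_sq {n : ℕ} (b : Basis (Fin n) K X) (s : Fin n → K) (D : K)
    (y : Module.End K X) (h : ∀ k l m, ¬ (s l = s k + D ∧ s m = s l + D)) :
    component b s D y * component b s D y = 0 := by
  classical
  unfold component
  rw [Module.End.mul_eq_comp, ← Matrix.toLin_mul b b b]
  refine Eq.trans ?_ (map_zero (Matrix.toLin b b))
  congr 1
  ext i j
  rw [Matrix.mul_apply]
  refine Finset.sum_eq_zero fun l _ => ?_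
  rw [Matrix.of_apply, Matrix.of_apply]
  by_cases h1 : s i = s l + D
  · by_cases h2 : s l = s j + D
    · exact absurd ⟨h2, h1⟩ (h j l i)
    · rw [if_neg h2, mul_zero]
  · rw [if_neg h1, zero_mul]

variable [IsAlgClosed K] (ω : X →ₗ[K] X →ₗ[K] K) (hnd : ∀ u, (∀ v, ω u v = 0) → u = 0)
  (hωR : ∀ g u v, ω (R g u) (R g v) = χ g * ω u v) (hss : HasProj R) {U : Submodule K X}
  (hU : SI R U)

include hnd hωR hss hU in
/-- A Frobenius element with simple ratios gives a square-zero element of rank one. -/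
theorem one_of_ratios (h2 : 2 ≤ finrank K U) (h : HasSimpleRatios R χ U) :
    ∃ e ∈ lieT R χ, e * e = 0 ∧ finrank K (U.map e) = 1 := by
  classical
  obtain ⟨F, n, b, a, d, u, c, i₀, hb, hu, hc⟩ := h
  -- the generic homomorphism
  let S₁ : Finset Kˣ := Finset.univ.image fun j : Fin d => c j / c i₀
  let S₂ : Finset Kˣ := Finset.univ.image fun q : Fin n × Fin n × Fin d =>
    a q.1 / a q.2.1 / (c q.2.2 / c i₀)
  let S₃ : Finset Kˣ := Finset.univ.image fun q : Fin d × Fin d × Fin d =>
    c q.1 / c q.2.1 / (c q.2.2 / c i₀)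
  obtain ⟨w, hw⟩ := exists_add_finset ((S₁ ∪ S₂ ∪ S₃).filter fun x => ¬ IsOfFinOrder x)
    (fun x hx => (Finset.mem_filter.1 hx).2)
  have hw' : ∀ x ∈ S₁ ∪ S₂ ∪ S₃, w (Additive.ofMul x) = 0 → IsOfFinOrder x := by
    intro x hx h0
    by_contra hn
    exact hw x (Finset.mem_filter.2 ⟨hx, hn⟩) h0
  have hw1 : ∀ j, w (Additive.ofMul (c j / c i₀)) = 0 → IsOfFinOrder (c j / c i₀) := fun j =>
    hw' _ (Finset.mem_union_left _ (Finset.mem_union_left _
      (Finset.mem_image.2 ⟨j, Finset.mem_univ _, rfl⟩)))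
  have hw2 : ∀ k l j, w (Additive.ofMul (a k / a l / (c j / c i₀))) = 0 →
      IsOfFinOrder (a k / a l / (c j / c i₀)) := fun k l j =>
    hw' _ (Finset.mem_union_left _ (Finset.mem_union_right _
      (Finset.mem_image.2 ⟨(k, l, j), Finset.mem_univ _, rfl⟩)))
  have hw3 : ∀ k l j, w (Additive.ofMul (c k / c l / (c j / c i₀))) = 0 →
      IsOfFinOrder (c k / c l / (c j / c i₀)) := fun k l j =>
    hw' _ (Finset.mem_union_right _ (Finset.mem_image.2 ⟨(k, l, j), Finset.mem_univ _, rfl⟩))
  have hdiv : ∀ x y : Kˣ, w (Additive.ofMul (x / y)) =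
      w (Additive.ofMul x) - w (Additive.ofMul y) := by
    intro x y
    rw [ofMul_div, map_sub]
  -- the grading
  let c₀ : Kˣ := Units.mk0 (χ F) (χne (χ := χ) F)
  let v : Kˣ → K := fun x => w (Additive.ofMul x) - w (Additive.ofMul c₀) / 2
  let s : Fin n → K := fun i => v (a i)
  have hvv : ∀ x y z : Kˣ, v x = v y + w (Additive.ofMul z) →
      w (Additive.ofMul (x / y / z)) = 0 := by
    intro x y z h
    rw [hdiv, hdiv]
    have h1 : w (Additive.ofMul x) - w (Additive.ofMul c₀) / 2 =
      w (Additive.ofMul y) - w (Additive.ofMul c₀) / 2 + w (Additive.ofMul z) := h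
    linear_combination h1
  have hG : gradingOperator b s ∈ lieT R χ := grading_mem ⟨F, a, c₀, w, hb, rfl, fun _ => rfl⟩
  have hbr : ∀ X' ∈ lieT R χ, ∀ Y ∈ lieT R χ, X' * Y - Y * X' ∈ lieT R χ :=
    fun _ h _ h' => lieT_bracket R χ h h'
  have hs_of : ∀ (l : Fin d) (i : Fin n), b.repr (u l : X) i ≠ 0 → s i = v (c l) := by
    intro l i hi
    change v (a i) = v (c l)
    rw [eig_of_repr F b a hb (c l) (hu l) hi]
  have hGu : ∀ l : Fin d, gradingOperator b s (u l : X) = v (c l) • (u l : X) := by
    intro l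
    apply b.repr.injective
    ext i
    have h3 : gradingOperator b s (u l : X) = ∑ i, (b.repr (u l : X) i * s i) • b i := by
      conv_lhs => rw [← b.sum_repr (u l : X)]
      rw [map_sum]
      refine Finset.sum_congr rfl fun k _ => ?_
      rw [map_smul, gradingOperator, Basis.constr_basis, smul_smul]
    rw [h3, Basis.repr_sum_self, map_smul, Finsupp.smul_apply, smul_eq_mul]
    by_cases hi : b.repr (u l : X) i = 0
    · rw [hi, zero_mul, mul_zero]
    · rw [hs_of l i hi, mul_comm]
  -- an operator that moves the line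
  have hd2 : 2 ≤ d := by
    have h3 := finrank_eq_card_basis u
    rw [Fintype.card_fin] at h3
    omega
  obtain ⟨j₁, hj₁⟩ : ∃ j : Fin d, j ≠ i₀ := by
    have : Nontrivial (Fin d) := Fin.nontrivial_iff_two_le.2 hd2
    exact exists_ne i₀
  obtain ⟨y, hy, hy0⟩ : ∃ y ∈ lieT R χ, ∀ t : K, y (u i₀ : X) ≠ t • (u i₀ : X) := by
    by_contra hcon
    push Not at hcon
    have hsc := scalar_of_vector hU (lieT R χ) (fun g Y hY => lieT_conj R χ g hY) (u i₀).2
      (fun h0 => u.ne_zero i₀ (Subtype.ext h0)) hcon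
    obtain ⟨t, ht⟩ := hsc _ hG
    have h3 : ∀ l, v (c l) = t := by
      intro l
      have h4 := ht _ (u l).2
      rw [hGu] at h4
      by_contra hne
      have h5 : (v (c l) - t) • (u l : X) = 0 := by rw [sub_smul, h4, sub_self]
      rcases smul_eq_zero.1 h5 with h6 | h6
      · exact hne (sub_eq_zero.1 h6)
      · exact u.ne_zero l (Subtype.ext h6)
    have h4 : v (c j₁) = v (c i₀) := (h3 j₁).trans (h3 i₀).symm
    refine (hc j₁ hj₁).1 (hw1 j₁ ?_)
    rw [hdiv]
    have h5 : w (Additive.ofMul (c j₁)) - w (Additive.ofMul c₀) / 2 =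
      w (Additive.ofMul (c i₀)) - w (Additive.ofMul c₀) / 2 := h4
    linear_combination h5
  have hyU := lieT_stable ω hnd hωR hss hU.2.1 hy
  obtain ⟨Y, hYd⟩ : ∃ Y : Module.End K U, Y = y.restrict hyU := ⟨_, rfl⟩
  have hYx : ∀ z : U, ((Y z : U) : X) = y z := fun z => by rw [hYd]; rfl
  obtain ⟨j, hj, hYj⟩ : ∃ j, j ≠ i₀ ∧ u.repr (Y (u i₀)) j ≠ 0 := by
    by_contra hcon
    push Not at hcon
    refine hy0 (u.repr (Y (u i₀)) i₀) ?_
    rw [← hYx, ← Submodule.coe_smul]
    congr 1
    conv_lhs => rw [← u.sum_repr (Y (u i₀))]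
    rw [Finset.sum_eq_single i₀]
    · intro k _ hk
      rw [hcon k hk, zero_smul]
    · intro h
      exact absurd (Finset.mem_univ _) h
  obtain ⟨hj1, hj2, hj3⟩ := hc j hj
  obtain ⟨D, hD⟩ : ∃ D, D = w (Additive.ofMul (c j / c i₀)) := ⟨_, rfl⟩
  -- the component
  obtain ⟨N₀, hN₀⟩ : ∃ N₀, N₀ = component b s D y := ⟨_, rfl⟩
  have hN : N₀ ∈ lieT R χ := by rw [hN₀]; exact component_mem b s y _ hbr hG hy D
  have hN2 : N₀ * N₀ = 0 := by
    rw [hN₀]
    refine component_sq b s D y fun k l m hh => ?_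
    refine hj2 k l m ⟨hw2 l k j (hvv _ _ _ ?_), hw2 m l j (hvv _ _ _ ?_)⟩
    · rw [← hD]
      exact hh.1
    · rw [← hD]
      exact hh.2
  have hst := lieT_stable ω hnd hωR hss hU.2.1 hN
  obtain ⟨N, hNd⟩ : ∃ N : Module.End K U, N = N₀.restrict hst := ⟨_, rfl⟩
  have hNx : ∀ z : U, ((N z : U) : X) = N₀ z := fun z => by rw [hNd]; rfl
  have hNN : N * N = 0 := by
    have h3 := sq_res hNx 0 (by rw [hN2, zero_smul])
    rw [h3, zero_smul]
  have hNm : N ∈ resL R χ U := ⟨_, hN, hNx⟩
  have hNu : ∀ l : Fin d, N (u l) =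
      ∑ k, (if v (c k) = v (c l) + D then u.repr (Y (u l)) k else 0) • u k := by
    intro l
    apply Subtype.ext
    rw [hNx, hN₀]
    apply b.repr.injective
    ext i
    rw [component_repr b s D y (hs_of l) i, ← hYx]
    have h3 : ((Y (u l) : U) : X) = ∑ k, u.repr (Y (u l)) k • (u k : X) := by
      conv_lhs => rw [← u.sum_repr (Y (u l))]
      push_cast
      rfl
    rw [h3]
    push_cast
    rw [map_sum, map_sum, Finsupp.finsetSum_apply, Finsupp.finsetSum_apply]
    by_cases hi : s i = v (c l) + D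
    · rw [if_pos hi]
      refine Finset.sum_congr rfl fun k _ => ?_
      rw [map_smul, map_smul, Finsupp.smul_apply, Finsupp.smul_apply]
      by_cases hk : b.repr (u k : X) i = 0
      · rw [hk, smul_zero, smul_zero]
      · rw [if_pos (by rw [← hs_of k i hk]; exact hi)]
    · rw [if_neg hi]
      symm
      refine Finset.sum_eq_zero fun k _ => ?_
      rw [map_smul, Finsupp.smul_apply]
      by_cases hk : b.repr (u k : X) i = 0
      · rw [hk, smul_zero]
      · rw [if_neg (by rw [← hs_of k i hk]; exact hi), zero_smul]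
  -- the rank
  have hrk1 : 1 ≤ rk N := by
    rcases Nat.eq_zero_or_pos (rk N) with h0 | h0
    · exfalso
      rw [rk_eq_zero.1 h0] at hNu
      have h3 := hNu i₀
      rw [LinearMap.zero_apply] at h3
      have h4 := congrArg (fun z => u.repr z j) h3
      simp only [map_zero, Finsupp.zero_apply] at h4
      rw [Basis.repr_sum_self, if_pos] at h4
      · exact hYj h4.symm
      · rw [hD, hdiv]
        change w (Additive.ofMul (c j)) - w (Additive.ofMul c₀) / 2 =
          w (Additive.ofMul (c i₀)) - w (Additive.ofMul c₀) / 2 + _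
        ring
    · exact h0
  have hrk2 : rk N ≤ occurrences c (c j / c i₀) := by
    let T : Finset (Fin d) := Finset.univ.filter fun k => ∃ l, v (c k) = v (c l) + D
    have h3 : LinearMap.range N ≤ Submodule.span K (u '' (T : Set (Fin d))) := by
      rintro _ ⟨z, rfl⟩
      rw [← u.sum_repr z, map_sum]
      refine Submodule.sum_mem _ fun l _ => ?_
      rw [map_smul, hNu]
      refine Submodule.smul_mem _ _ (Submodule.sum_mem _ fun k _ => ?_)
      by_cases hk : v (c k) = v (c l) + D
      · refine Submodule.smul_mem _ _ (Submodule.subset_span ⟨k, ?_, rfl⟩)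
        exact Finset.mem_coe.2 (Finset.mem_filter.2 ⟨Finset.mem_univ _, l, hk⟩)
      · rw [if_neg hk, zero_smul]
        exact Submodule.zero_mem _
    have h4 : rk N ≤ T.card := by
      have h5 : (u '' (T : Set (Fin d))) = ((T.image u : Finset U) : Set U) := by
        rw [Finset.coe_image]
      rw [h5] at h3
      exact (Submodule.finrank_mono h3).trans
        ((finrank_span_finset_le_card _).trans Finset.card_image_le)
    refine h4.trans ?_
    unfold occurrences
    rw [← Fintype.card_coe, ← Nat.card_eq_fintype_card]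
    choose! f hf using fun k (hk : k ∈ T) => (Finset.mem_filter.1 hk).2
    refine Nat.card_le_card_of_injective
      (fun k : T => (⟨(k.1, f k.1), hw3 _ _ _ (hvv _ _ _ (by rw [← hD]; exact hf k.1 k.2))⟩ :
        {q : Fin d × Fin d // IsOfFinOrder (c q.1 / c q.2 / (c j / c i₀))})) ?_
    intro k k' hkk
    have h5 := congrArg (fun q => q.1.1) hkk
    exact Subtype.ext h5
  have hN0 : U.map N₀ ≠ ⊥ := by
    intro h0
    have h3 : N = 0 := by
      refine LinearMap.ext fun z => Subtype.ext ?_
      have h4 : N₀ z ∈ U.map N₀ := Submodule.mem_map_of_mem z.2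
      rw [h0, Submodule.mem_bot] at h4
      rw [hNx, h4]
      rfl
    rw [h3, rk_eq_zero.2 rfl] at hrk1
    omega
  rcases Nat.lt_or_ge (rk N) 2 with h3 | h3
  · exact one_of_rank_one ω hnd hωR hss hU hN hN2 hN0 hNm hNN (by omega)
  · rcases hj3 with h4 | ⟨h4, halt⟩
    · omega
    · exact one_of_alt_gen ω hnd hωR hss hU halt hN hN2 hN0 hNm hNN (d := 2) (by omega) two_ne_zero
        (Or.inl rfl)

end

end

end Pool.Agent.U124.FT
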