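import Mathlib
import Pool.Agent.U124.FT.Tor
import Pool.Agent.W529.Ta.Basis

/-!
# One Frobenius element with few relations between four eigenvalues
-/

set_option autoImplicit false
set_option linter.unusedSectionVars false

namespace Pool.Agent.U124.FT

open Module Pool.Agent.Y126.Notions
open Pool.Agent.H204R3.SP Pool.Agent.H204R3.GP Pool.Agent.W522.U

noncomputable section

variable {K : Type} [Field K] [CharZero K] {X : Type} [AddCommGroup X] [Module K X]
  [FiniteDimensional K X] {Γ : Type} [Group Γ] {R : Representation K Γ X} {χ : Γ →* K}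

/-- The eigenvalues `v i` of `γ` have only the relations of the pairs. -/
structure Pairs (R : Representation K Γ X) (χ : Γ →* K) (γ : Γ) {n : ℕ} (e : Basis (Fin n) K X)
    (v : Fin n → Kˣ) (c : Kˣ) : Prop where
  eig : ∀ i, R γ (e i) = (v i : K) • e i
  chi : (c : K) = χ γ
  inj : ∀ i j, IsOfFinOrder (v i / v j) → i = j
  nss : ∀ i, ¬ IsOfFinOrder (v i * v i / c)
  short : ∀ i j k l, IsOfFinOrder (v i * v j * v k * v l / (c * c)) →
    IsOfFinOrder (v i * v j / c) ∨ IsOfFinOrder (v i * v k / c) ∨ IsOfFinOrder (v i * v l / c)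

theorem pow_mem_of_finiteIndex (Δ : Subgroup Γ) (hΔ : Δ.FiniteIndex) (γ : Γ) :
    ∃ m : ℕ, 0 < m ∧ γ ^ m ∈ Δ := by
  obtain ⟨m, h1, _, h2⟩ := Subgroup.exists_pow_mem_of_index_ne_zero hΔ.index_ne_zero γ
  exact ⟨m, h1, h2⟩

theorem fin_of_pow {x : Kˣ} {m : ℕ} (hm : 0 < m) (h : x ^ m = 1) : IsOfFinOrder x :=
  isOfFinOrder_iff_pow_eq_one.2 ⟨m, hm, h⟩

section
variable {γ : Γ} {n : ℕ} {e : Basis (Fin n) K X} {v : Fin n → Kˣ} {c : Kˣ}
  (hP : Pairs R χ γ e v c)

include hP in
theorem eig_pow (m : ℕ) (i : Fin n) : R (γ ^ m) (e i) = ((v i ^ m : Kˣ) : K) • e i := by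
  induction m with
  | zero =>
    rw [pow_zero, map_one, pow_zero, Units.val_one, one_smul]
    rfl
  | succ m ih =>
    rw [pow_succ', map_mul, Module.End.mul_apply, ih, map_smul, hP.eig, smul_smul, pow_succ,
      Units.val_mul]

include hP in
theorem inj_pow {m : ℕ} (hm : 0 < m) : Function.Injective fun i => ((v i ^ m : Kˣ) : K) := by
  intro i j h
  have h1 : v i ^ m = v j ^ m := Units.ext h
  exact hP.inj i j (fin_of_pow hm (by rw [div_pow, h1, div_self']))

include hP in
/-- Potentially stable subspaces contain the eigenvectors which occur in their vectors. -/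
theorem eig_mem {U : Submodule K X} (hU : Pot R U) {u : X} (hu : u ∈ U) {i : Fin n}
    (hi : e.repr u i ≠ 0) : e i ∈ U := by
  obtain ⟨Δ, hΔ, h⟩ := hU
  obtain ⟨m, hm, h1⟩ := pow_mem_of_finiteIndex Δ hΔ γ
  exact Pool.Agent.W529.Ta.mem_of_stable e (R (γ ^ m)) _ (inj_pow hP hm) (eig_pow hP m) U
    (fun u hu => h _ h1 u hu) hu hi

include hP in
/-- The basis of eigenvectors of a potentially stable subspace. -/
theorem exists_basis {U : Submodule K X} (hU : Pot R U) :
    ∃ u : Basis {i // e i ∈ U} K U, ∀ i, (u i : X) = e i := by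
  classical
  let f : {i // e i ∈ U} → U := fun i => ⟨e i, i.2⟩
  have hli : LinearIndependent K f := by
    refine LinearIndependent.of_comp U.subtype ?_
    exact e.linearIndependent.comp _ Subtype.val_injective
  have hsp : ⊤ ≤ Submodule.span K (Set.range f) := by
    rintro ⟨u, hu⟩ -
    have h1 : (⟨u, hu⟩ : U) = ∑ i : {i // e i ∈ U}, e.repr u i • f i := by
      apply Subtype.ext
      push_cast
      change u = ∑ i : {i // e i ∈ U}, e.repr u i • e i
      conv_lhs => rw [← e.sum_repr u]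
      rw [← Fintype.sum_subtype_add_sum_subtype (fun i => e i ∈ U) fun i => e.repr u i • e i]
      rw [Finset.sum_eq_zero (s := Finset.univ) (f := fun i : {i // ¬ e i ∈ U} =>
        e.repr u i • e i), add_zero]
      intro i _
      by_contra h2
      refine i.2 (eig_mem hP hU hu fun h3 => h2 ?_)
      rw [h3, zero_smul]
    rw [h1]
    exact Submodule.sum_mem _ fun i _ => Submodule.smul_mem _ _ (Submodule.subset_span ⟨i, rfl⟩)
  exact ⟨Basis.mk hli hsp, fun i => by rw [Basis.mk_apply]⟩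


include hP in
/-- The eigenvectors that are paired by a bilinear form. -/
theorem fin_of_form {Δ : Subgroup Γ} (hΔ : Δ.FiniteIndex) {U U' : Submodule K X}
    {B : X →ₗ[K] X →ₗ[K] K} (hB : ∀ g ∈ Δ, ∀ u ∈ U, ∀ w ∈ U', B (R g u) (R g w) = χ g * B u w)
    {i j : Fin n} (hi : e i ∈ U) (hj : e j ∈ U') (h : B (e i) (e j) ≠ 0) :
    IsOfFinOrder (v i * v j / c) := by
  obtain ⟨m, hm, h1⟩ := pow_mem_of_finiteIndex Δ hΔ γ
  have h2 := hB _ h1 _ hi _ hj
  rw [eig_pow hP, eig_pow hP, map_smul, map_smul, LinearMap.smul_apply, smul_eq_mul, smul_eq_mul,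
    ← mul_assoc, map_pow, ← hP.chi] at h2
  have h3 := mul_right_cancel₀ h h2
  refine fin_of_pow hm ?_
  rw [div_pow, div_eq_one, mul_pow]
  apply Units.ext
  rw [Units.val_mul, mul_comm]
  push_cast at h3 ⊢
  rw [← h3]

include hP in
/-- A pairing of potentially stable subspaces is not zero on some pair of eigenvectors. -/
theorem exists_pair {U U' : Submodule K X} (hU : Pot R U) (hU' : Pot R U')
    {B : X →ₗ[K] X →ₗ[K] K} (hB : ∃ u ∈ U, ∃ w ∈ U', B u w ≠ 0) :
    ∃ i j, e i ∈ U ∧ e j ∈ U' ∧ B (e i) (e j) ≠ 0 := by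
  by_contra hcon
  push Not at hcon
  obtain ⟨u, hu, w, hw, h⟩ := hB
  apply h
  rw [← e.sum_repr u, map_sum, LinearMap.sum_apply]
  refine Finset.sum_eq_zero fun i _ => ?_
  by_cases h1 : e.repr u i = 0
  · rw [h1, zero_smul, map_zero, LinearMap.zero_apply]
  rw [map_smul, LinearMap.smul_apply, ← e.sum_repr w, map_sum]
  rw [Finset.sum_eq_zero, smul_zero]
  intro j _
  by_cases h2 : e.repr w j = 0
  · rw [h2, zero_smul, map_zero]
  rw [map_smul, hcon i j (eig_mem hP hU hu h1) (eig_mem hP hU' hw h2), smul_zero]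

include hP in
theorem not_selfDual_line (U : Submodule K X) (hU : SI R U) (h1 : finrank K U = 1) :
    ¬ Du R χ U U := by
  rintro ⟨Δ, hΔ, B, hB, h⟩
  obtain ⟨i, j, hi, hj, hij⟩ := exists_pair hP hU.2.1 hU.2.1 hB
  have h2 := fin_of_form hP hΔ h hi hj hij
  have h3 : j = i := by
    obtain ⟨t, ht⟩ := (finrank_eq_one_iff_of_nonzero' (⟨e i, hi⟩ : U) (fun h0 =>
      e.ne_zero i (Subtype.ext_iff.1 h0))).1 h1 ⟨e j, hj⟩
    have h4 : t • e i = e j := congrArg Subtype.val ht
    by_contra hne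
    have h5 := congrArg (fun z => e.repr z j) h4
    simp only [map_smul, Finsupp.smul_apply, e.repr_self, Finsupp.single_eq_same] at h5
    rw [Finsupp.single_eq_of_ne hne, smul_zero] at h5
    exact zero_ne_one h5
  rw [h3] at h2
  exact hP.nss i h2

variable (ω : X →ₗ[K] X →ₗ[K] K) (hnd : ∀ u, (∀ v, ω u v = 0) → u = 0)
  (hωR : ∀ g u v, ω (R g u) (R g v) = χ g * ω u v)

include hP hnd hωR in
/-- The dual index. -/
theorem exists_dual (i : Fin n) : ∃ j, ω (e i) (e j) ≠ 0 ∧ v i * v j = c := by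
  by_contra hcon
  push Not at hcon
  apply e.ne_zero i
  apply hnd
  intro w
  rw [← e.sum_repr w, map_sum]
  refine Finset.sum_eq_zero fun j _ => ?_
  rw [map_smul]
  by_cases h : ω (e i) (e j) = 0
  · rw [h, smul_zero]
  exfalso
  apply hcon j h
  have h2 := hωR γ (e i) (e j)
  rw [hP.eig, hP.eig, map_smul, map_smul, LinearMap.smul_apply, smul_eq_mul, smul_eq_mul,
    ← mul_assoc, ← hP.chi] at h2
  have h3 := mul_right_cancel₀ h h2
  apply Units.ext
  rw [Units.val_mul, ← h3, mul_comm]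


/-- Elements up to roots of unity. -/
def Eq1 (x y : Kˣ) : Prop := IsOfFinOrder (x / y)

theorem Eq1.mul {x y x' y' : Kˣ} (h : Eq1 x y) (h' : Eq1 x' y') : Eq1 (x * x') (y * y') := by
  unfold Eq1
  rw [mul_div_mul_comm]
  exact IsOfFinOrder.mul h h'

theorem Eq1.symm {x y : Kˣ} (h : Eq1 x y) : Eq1 y x := by
  unfold Eq1
  rw [← inv_div]
  exact IsOfFinOrder.inv h

theorem Eq1.trans {x y z : Kˣ} (h : Eq1 x y) (h' : Eq1 y z) : Eq1 x z := by
  unfold Eq1
  rw [← div_mul_div_cancel x y z]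
  exact IsOfFinOrder.mul h h'

theorem Eq1.of_eq {x y : Kˣ} (h : x = y) : Eq1 x y := by
  unfold Eq1
  rw [h, div_self']
  exact IsOfFinOrder.one

theorem Eq1.inv {x y : Kˣ} (h : Eq1 x y) : Eq1 x⁻¹ y⁻¹ := by
  unfold Eq1
  rw [inv_div_inv]
  exact h.symm

theorem Eq1.div {x y x' y' : Kˣ} (h : Eq1 x y) (h' : Eq1 x' y') : Eq1 (x / x') (y / y') := by
  rw [div_eq_mul_inv, div_eq_mul_inv]
  exact h.mul h'.inv

include hP in
theorem short' {i j k l : Fin n} (h : Eq1 (v i * v j * v k * v l) (c * c)) :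
    Eq1 (v i * v j) c ∨ Eq1 (v i * v k) c ∨ Eq1 (v i * v l) c := hP.short i j k l h

include hP in
theorem eq_of_eq1 {i j : Fin n} (h : Eq1 (v i) (v j)) : i = j := hP.inj i j h

include hP in
/-- If two of the eigenvalues have the product `c` with `v i` then they are equal. -/
theorem eq_of_dual {i j k : Fin n} (h : Eq1 (v i * v j) c) (h' : Eq1 (v i * v k) c) : j = k := by
  refine eq_of_eq1 hP ?_
  have h1 := h.trans h'.symm
  have h2 : v i * v j / (v i * v k) = v j / v k := by
    rw [mul_div_mul_comm, div_self', one_mul]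
  unfold Eq1 at h1 ⊢
  rwa [h2] at h1

include hP in
/-- The coincidences between the ratios. -/
theorem ratio {i j k l i' j' k' l' : Fin n} (hi : v i * v i' = c) (hl : v l * v l' = c)
    (hj : v j * v j' = c) (hk : v k * v k' = c)
    (h : Eq1 (v k / v l) (v j / v i)) : k = l ∧ j = i ∨ k = j ∧ l = i ∨ k = i' ∧ l = j' := by
  have h1 : Eq1 (v k * v l' * v j' * v i) (c * c) := by
    have h2 : v k * v l' * v j' * v i = (v k / v l) / (v j / v i) * (c * c) := by
      have h3 : v k * v l' * v j' * v i =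
          (v k / v l) / (v j / v i) * ((v l * v l') * (v j * v j')) := by
        apply Units.ext
        push_cast
        field_simp
      rw [h3, hl, hj]
    rw [h2]
    unfold Eq1 at h ⊢
    rw [mul_div_assoc, div_self', mul_one]
    exact h
  rcases short' hP h1 with h2 | h2 | h2
  · have h3 : l' = k' := (eq_of_dual hP h2 (Eq1.of_eq hk))
    have h4 : k = l := by
      refine eq_of_eq1 hP ?_
      have h5 : v k = v l := by
        rw [← h3] at hk
        exact mul_right_cancel (hk.trans hl.symm)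
      exact Eq1.of_eq h5
    refine Or.inl ⟨h4, ?_⟩
    refine eq_of_eq1 hP ?_
    rw [h4] at h
    unfold Eq1 at h ⊢
    rw [div_self', one_div, inv_div] at h
    rw [← inv_div]
    exact IsOfFinOrder.inv h
  · have h3 : j' = k' := (eq_of_dual hP h2 (Eq1.of_eq hk))
    have h4 : v k = v j := by
      rw [← h3] at hk
      exact mul_right_cancel (hk.trans hj.symm)
    have h5 : k = j := eq_of_eq1 hP (Eq1.of_eq h4)
    refine Or.inr (Or.inl ⟨h5, eq_of_eq1 hP ?_⟩)
    rw [h5] at h
    have h6 := (Eq1.of_eq (rfl : v j = v j)).div h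
    rw [div_div_cancel, div_div_cancel] at h6
    exact h6
  · have h3 : i' = k := by
      refine eq_of_dual hP (Eq1.of_eq hi) ?_
      rw [mul_comm]
      exact h2
    refine Or.inr (Or.inr ⟨h3.symm, eq_of_eq1 hP ?_⟩)
    have h4 : v k = c / v i := by rw [← h3, ← hi, mul_div_cancel_left]
    have h5 : v j' = c / v j := by rw [← hj, mul_div_cancel_left]
    rw [h4] at h
    rw [h5]
    have h6 := (Eq1.of_eq (rfl : c / v i = c / v i)).div h
    rw [div_div_cancel] at h6
    refine h6.trans (Eq1.of_eq ?_)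
    rw [div_div_div_cancel_right]

end

end

end Pool.Agent.U124.FT
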