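import Mathlib
import Pool.Agent.U124.FT.Pairs

/-!
# Consequences of the absence of relations between four eigenvalues
-/

set_option autoImplicit false
set_option linter.unusedSectionVars false

namespace Pool.Agent.U124.FT

open Module Pool.Agent.Y126.Notions
open Pool.Agent.H204R3.SP Pool.Agent.H204R3.GP Pool.Agent.W522.U

noncomputable section

theorem card_le_two_of {A : Type} [Finite A] (P : A → Prop) (x y : A)
    (h : ∀ a, P a → a = x ∨ a = y) : Nat.card {a // P a} ≤ 2 := by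
  classical
  have _ := Fintype.ofFinite A
  rw [Nat.card_eq_fintype_card, Fintype.card_subtype]
  have h1 : Finset.univ.filter P ⊆ {x, y} := by
    intro a ha
    have h2 := h a (Finset.mem_filter.1 ha).2
    simp only [Finset.mem_insert, Finset.mem_singleton]
    exact h2
  exact (Finset.card_le_card h1).trans Finset.card_le_two

theorem card_le_one_of {A : Type} [Finite A] (P : A → Prop) (x : A)
    (h : ∀ a, P a → a = x) : Nat.card {a // P a} ≤ 1 := by
  have h1 : Subsingleton {a // P a} :=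
    ⟨fun a b => Subtype.ext ((h a.1 a.2).trans (h b.1 b.2).symm)⟩
  exact Finite.card_le_one_iff_subsingleton.2 h1

variable {K : Type} [Field K] [CharZero K] {X : Type} [AddCommGroup X] [Module K X]
  [FiniteDimensional K X] {Γ : Type} [Group Γ] {R : Representation K Γ X} {χ : Γ →* K}
  {γ : Γ} {n : ℕ} {e : Basis (Fin n) K X} {v : Fin n → Kˣ} {c : Kˣ}
  (hP : Pairs R χ γ e v c)
  (ω : X →ₗ[K] X →ₗ[K] K) (halt : ∀ u, ω u u = 0) (hnd : ∀ u, (∀ v, ω u v = 0) → u = 0)
  (hωR : ∀ g u v, ω (R g u) (R g v) = χ g * ω u v)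

include hP halt hnd hωR in
/-- A self-dual strongly irreducible subspace is symplectic. -/
theorem symplectic_of_dual {U : Submodule K X} {i i' : Fin n}
    (hi : e i ∈ U) (hi' : e i' ∈ U) (h : IsOfFinOrder (v i * v i' / c)) : IsSymplectic R χ U := by
  obtain ⟨j, h1, h2⟩ := exists_dual hP ω hnd hωR i
  have h3 : i' = j := eq_of_dual hP h (Eq1.of_eq h2)
  refine ⟨⊤, inferInstance, ω, ⟨e i, hi, e i', hi', ?_⟩, fun u _ => halt u,
    fun g _ u _ w _ => hωR g u w⟩
  rw [h3]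
  exact h1

include hP halt hnd hωR in
/-- The ratios are simple. -/
theorem simple_of_pairs {U : Submodule K X} (hU : SI R U) (h2 : 2 ≤ finrank K U) :
    HasSimpleRatios R χ U := by
  classical
  obtain ⟨u, hu⟩ := exists_basis hP hU.2.1
  let σ : {i // e i ∈ U} ≃ Fin (Fintype.card {i // e i ∈ U}) := Fintype.equivFin _
  have hd : 2 ≤ Fintype.card {i // e i ∈ U} := by
    rw [← finrank_eq_card_basis u]
    exact h2
  let i₀ : Fin (Fintype.card {i // e i ∈ U}) := ⟨0, by omega⟩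
  refine ⟨γ, n, e, v, _, u.reindex σ, fun j => v (σ.symm j).1, i₀, hP.eig, fun i => ?_,
    fun j hj => ?_⟩
  · rw [Basis.reindex_apply, hu, hP.eig]
  let i : Fin n := (σ.symm i₀).1
  let j₁ : Fin n := (σ.symm j).1
  have hi : i = (σ.symm i₀).1 := rfl
  have hj₁ : j₁ = (σ.symm j).1 := rfl
  have hne : j₁ ≠ i := by
    intro h
    exact hj (σ.symm.injective (Subtype.ext h))
  obtain ⟨i', hωi, hci⟩ := exists_dual hP ω hnd hωR i
  obtain ⟨j', -, hcj⟩ := exists_dual hP ω hnd hωR j₁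
  have hii' : i ≠ i' := by
    rintro rfl
    exact hP.nss i (Eq1.of_eq hci)
  have hjj' : j₁ ≠ j' := by
    rintro rfl
    exact hP.nss j₁ (Eq1.of_eq hcj)
  have hij' : i' ≠ j' := by
    rintro rfl
    apply hne
    refine hP.inj _ _ (Eq1.of_eq ?_)
    exact mul_right_cancel (hcj.trans hci.symm)
  have key : ∀ k l, Eq1 (v k / v l) (v j₁ / v i) → (k = j₁ ∧ l = i) ∨ (k = i' ∧ l = j') := by
    intro k l h
    obtain ⟨k', -, hck⟩ := exists_dual hP ω hnd hωR k
    obtain ⟨l', -, hcl⟩ := exists_dual hP ω hnd hωR l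
    rcases ratio hP hci hcl hcj hck h with ⟨-, h1⟩ | h1 | h1
    · exact absurd h1 hne
    · exact Or.inl h1
    · exact Or.inr h1
  refine ⟨fun h => hne (hP.inj _ _ h), fun k l m hh => ?_, ?_⟩
  · rcases key l k hh.1 with ⟨h3, h4⟩ | ⟨h3, h4⟩ <;> rcases key m l hh.2 with ⟨h5, h6⟩ | ⟨h5, h6⟩
    · exact hne (h3.symm.trans h6)
    · exact hjj' (h3.symm.trans h6)
    · exact hii' (h6.symm.trans h3)
    · exact hij' (h3.symm.trans h6)
  have hσ : ∀ (k : Fin (Fintype.card {i // e i ∈ U})) (x : Fin (Fintype.card {i // e i ∈ U})),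
      (σ.symm k).1 = (σ.symm x).1 → k = x := fun k x h =>
    σ.symm.injective (Subtype.ext h)
  by_cases hmem : e i' ∈ U ∧ e j' ∈ U
  · refine Or.inr ⟨?_, symplectic_of_dual hP ω halt hnd hωR (i := i) (i' := i') ?_ hmem.1
      (Eq1.of_eq hci)⟩
    · refine card_le_two_of _ (j, i₀) (σ ⟨i', hmem.1⟩, σ ⟨j', hmem.2⟩) fun q hq => ?_
      rcases key (σ.symm q.1).1 (σ.symm q.2).1 hq with ⟨h3, h4⟩ | ⟨h3, h4⟩
      · refine Or.inl (Prod.ext (hσ _ _ ?_) (hσ _ _ ?_))
        · rw [h3, hj₁]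
        · rw [h4, hi]
      · refine Or.inr (Prod.ext ?_ ?_)
        · rw [← σ.symm_apply_eq]
          exact Subtype.ext h3
        · rw [← σ.symm_apply_eq]
          exact Subtype.ext h4
    · rw [hi]
      exact (σ.symm i₀).2
  · refine Or.inl (card_le_one_of _ (j, i₀) fun q hq => ?_)
    rcases key (σ.symm q.1).1 (σ.symm q.2).1 hq with ⟨h3, h4⟩ | ⟨h3, h4⟩
    · refine Prod.ext (hσ _ _ ?_) (hσ _ _ ?_)
      · rw [h3, hj₁]
      · rw [h4, hi]
    · exfalso
      apply hmem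
      rw [← h3, ← h4]
      exact ⟨(σ.symm q.1).2, (σ.symm q.2).2⟩

include hP in
theorem noSelfDualLines_of_pairs : NoSelfDualLines R χ :=
  fun U hU h1 => not_selfDual_line hP U hU h1

include hP hnd hωR in
/-- There are no proper twists. -/
theorem noProperTwists_of_pairs
    (hdim : ∀ U, StronglyIrreducible R U → finrank K U = 2 → IsSymplectic R χ U) :
    NoProperTwists R χ := by
  classical
  intro U U' hU hU' h2 hnsd ψ hT
  obtain ⟨Δ, hΔ, T, hTU, hT0, hTe⟩ := hT
  have hd3 : 3 ≤ finrank K U := by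
    by_contra h3
    obtain ⟨Δ', hΔ', B, hB, -, h⟩ := hdim U hU (by omega)
    exact hnsd ⟨Δ', hΔ', B, hB, h⟩
  by_cases hcap : ∃ i, e i ∈ U ∧ e i ∈ U'
  · obtain ⟨i, hi, hi'⟩ := hcap
    have hinf : Pot R (U ⊓ U') := Pot.inf hU.2.1 hU'.2.1
    have hne : U ⊓ U' ≠ ⊥ := fun h0 => e.ne_zero i (by
      have h1 : e i ∈ U ⊓ U' := ⟨hi, hi'⟩
      rwa [h0, Submodule.mem_bot] at h1)
    have h3 : U ⊓ U' = U := (hU.2.2 _ inf_le_left hinf).resolve_left hne
    have h4 : U ⊓ U' = U' := (hU'.2.2 _ inf_le_right hinf).resolve_left hne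
    have h5 : U = U' := h3.symm.trans h4
    refine ⟨⊤, inferInstance, LinearMap.id, fun u hu => ?_, ⟨e i, hi, e.ne_zero i⟩,
      fun g _ u _ => ?_⟩
    · rw [← h5]
      exact hu
    · rw [one_smul]
      rfl
  exfalso
  -- the map is injective
  have hinj : ∀ u ∈ U, T u = 0 → u = 0 := by
    intro u hu h0
    obtain ⟨Δ₁, hΔ₁, h1⟩ := hU.2.1
    have hpot : Pot R (U ⊓ LinearMap.ker T) := by
      refine ⟨Δ ⊓ Δ₁, inferInstance, fun g hg w hw => ⟨h1 g hg.2 w hw.1, ?_⟩⟩
      change T (R g w) = 0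
      rw [hTe g hg.1 w hw.1, LinearMap.mem_ker.1 hw.2, map_zero, smul_zero]
    rcases hU.2.2 _ inf_le_left hpot with h3 | h3
    · have h4 : u ∈ U ⊓ LinearMap.ker T := ⟨hu, h0⟩
      rwa [h3, Submodule.mem_bot] at h4
    · obtain ⟨w, hw, hw0⟩ := hT0
      have h4 : w ∈ U ⊓ LinearMap.ker T := by
        rw [h3]
        exact hw
      exact absurd h4.2 hw0
  obtain ⟨m, hm, hmΔ⟩ := pow_mem_of_finiteIndex Δ hΔ γ
  have hex : ∀ i, e i ∈ U → ∃ k, e k ∈ U' ∧ ψ (γ ^ m) * ((v k ^ m : Kˣ) : K) =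
      ((v i ^ m : Kˣ) : K) ∧ e.repr (T (e i)) k ≠ 0 := by
    intro i hi
    have h1 := hTe _ hmΔ _ hi
    rw [eig_pow hP, map_smul] at h1
    have h3 : T (e i) ≠ 0 := fun h0 => e.ne_zero i (hinj _ hi h0)
    obtain ⟨k, hk⟩ : ∃ k, e.repr (T (e i)) k ≠ 0 := by
      by_contra hcon
      push Not at hcon
      apply h3
      apply e.repr.injective
      ext k
      rw [hcon k, map_zero, Finsupp.zero_apply]
    have h4 : e.repr (R (γ ^ m) (T (e i))) k = ((v k ^ m : Kˣ) : K) * e.repr (T (e i)) k := by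
      conv_lhs => rw [← e.sum_repr (T (e i))]
      rw [map_sum, map_sum, Finsupp.finsetSum_apply, Finset.sum_eq_single k]
      · rw [map_smul, eig_pow hP, map_smul, map_smul, Finsupp.smul_apply, Finsupp.smul_apply,
          e.repr_self, Finsupp.single_eq_same, smul_eq_mul, smul_eq_mul, mul_one, mul_comm]
      · intro l _ hl
        rw [map_smul, eig_pow hP, map_smul, map_smul, Finsupp.smul_apply, Finsupp.smul_apply,
          e.repr_self, Finsupp.single_eq_of_ne (Ne.symm hl), smul_zero, smul_zero]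
      · intro h
        exact absurd (Finset.mem_univ _) h
    have h5 := congrArg (fun z => e.repr z k) h1
    simp only [map_smul, Finsupp.smul_apply, smul_eq_mul] at h5
    rw [h4] at h5
    refine ⟨k, eig_mem hP hU'.2.1 (hTU _ hi) hk, ?_, hk⟩
    refine mul_right_cancel₀ hk ?_
    rw [h5]
    ring
  choose! f hf1 hf2 hf3 using hex
  have hψ : ∀ i, e i ∈ U → ψ (γ ^ m) ≠ 0 := fun i hi h0 => by
    have h1 := hf2 i hi
    rw [h0, zero_mul] at h1
    exact (v i ^ m).ne_zero h1.symm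
  have hrel : ∀ i j, e i ∈ U → e j ∈ U → Eq1 (v (f i) / v i) (v (f j) / v j) := by
    intro i j hi hj
    have h1 := hf2 i hi
    have h2 := hf2 j hj
    refine fin_of_pow hm ?_
    rw [div_pow, div_pow, div_pow, div_eq_one, div_eq_div_iff_mul_eq_mul]
    apply Units.ext
    rw [Units.val_mul, Units.val_mul]
    refine mul_left_cancel₀ (hψ i hi) ?_
    rw [← mul_assoc, h1, ← mul_assoc, h2, mul_comm]
  have hcase : ∀ i j, e i ∈ U → e j ∈ U → i ≠ j → Eq1 (v (f i) * v j) c := by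
    intro i j hi hj hij
    have h1 := hrel i j hi hj
    obtain ⟨i', -, hci⟩ := exists_dual hP ω hnd hωR i
    obtain ⟨j', -, hcj⟩ := exists_dual hP ω hnd hωR j
    obtain ⟨k', -, hck⟩ := exists_dual hP ω hnd hωR (f i)
    obtain ⟨l', -, hcl⟩ := exists_dual hP ω hnd hωR (f j)
    rcases ratio hP (i := j) (j := f j) (k := f i) (l := i) hcj hci hcl hck h1 with
      ⟨h3, -⟩ | ⟨h3, h4⟩ | ⟨h3, -⟩
    · refine absurd ⟨i, hi, ?_⟩ hcap
      rw [← h3]
      exact hf1 i hi
    · exact absurd h4 hij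
    · rw [h3, mul_comm]
      exact Eq1.of_eq hcj
  obtain ⟨u, hu⟩ := exists_basis hP hU.2.1
  rw [finrank_eq_card_basis u] at hd3
  obtain ⟨i, j, k, hij, hik, hjk⟩ := Fintype.two_lt_card_iff.1 hd3
  have h5 := hcase i j i.2 j.2 fun h => hij (Subtype.ext h)
  have h6 := hcase i k i.2 k.2 fun h => hik (Subtype.ext h)
  exact hjk (Subtype.ext (eq_of_dual hP h5 h6))

end

end Pool.Agent.U124.FT
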