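import Mathlib
import Pool.Agent.U124.FT.Setup
import Pool.Agent.U124.FT.Short
import Pool.Agent.U124.FT.Simple

/-!
# Proofs
-/

set_option autoImplicit false
set_option linter.unusedSectionVars false

namespace Pool.Agent.U124.FT

open Module TensorProduct NumberField Pool.Agent.Y126.Notions
open Pool.Agent.H204R3.SP Pool.Agent.H204R3.GP Pool.Agent.TH118.MT Pool.Agent.W522.U

noncomputable section

section basis

variable {K : Type} [Field K] [CharZero K] {X : Type} [AddCommGroup X] [Module K X]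
  [FiniteDimensional K X] {Γ : Type} [Group Γ] {R : Representation K Γ X} {χ : Γ →* K}

theorem exists_eigenbasis [IsAlgClosed K] (T : Module.End K X) (hsep : T.charpoly.Separable) :
    ∃ (n : ℕ) (e : Basis (Fin n) K X) (μ : Fin n → K), Function.Injective μ ∧
      (∀ i, T (e i) = μ i • e i) ∧ ∀ i, T.charpoly.IsRoot (μ i) := by
  classical
  obtain ⟨Q, hQdef⟩ : ∃ Q : Polynomial K, Q = T.charpoly := ⟨_, rfl⟩
  have hQm : Q.Monic := by rw [hQdef]; exact LinearMap.charpoly_monic _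
  have h1 : Q.Splits := IsAlgClosed.splits Q
  have hQs : Q.Separable := by rw [hQdef]; exact hsep
  let S : Finset K := Q.roots.toFinset
  have hQ : Q = ∏ x : S, (Polynomial.X - Polynomial.C (x : K)) := by
    rw [Finset.prod_coe_sort S (fun x => Polynomial.X - Polynomial.C x)]
    conv_lhs => rw [h1.eq_prod_roots_of_monic hQm]
    have h5 : Q.roots.Nodup := Polynomial.nodup_roots hQs
    rw [Finset.prod_eq_multiset_prod]
    congr 2
    exact (Multiset.dedup_eq_self.2 h5).symm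
  obtain ⟨e, he⟩ := Pool.Agent.W529.Ta.exists_eigenbasis T (fun x : S => (x : K))
    Subtype.val_injective (by rw [← hQdef]; exact hQ)
  let σ : S ≃ Fin (Fintype.card S) := Fintype.equivFin _
  refine ⟨_, e.reindex σ, fun i => (σ.symm i).1, fun i j h => σ.symm.injective (Subtype.ext h),
    fun i => ?_, fun i => ?_⟩
  · rw [Basis.reindex_apply, he]
  · have h2 := (σ.symm i).2
    rw [← hQdef]
    exact Polynomial.isRoot_of_mem_roots (Multiset.mem_toFinset.1 h2)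

theorem exists_pairs_gen [IsAlgClosed K] (γ : Γ) (hsep : (R γ).charpoly.Separable)
    (h : OnlyPairs (R γ).charpoly (χ γ))
    (ω : X →ₗ[K] X →ₗ[K] K) (hnd : ∀ u, (∀ v, ω u v = 0) → u = 0)
    (hωR : ∀ g u v, ω (R g u) (R g v) = χ g * ω u v) :
    ∃ (n : ℕ) (e : Basis (Fin n) K X) (v : Fin n → Kˣ) (c : Kˣ), Pairs R χ γ e v c := by
  obtain ⟨n, e, μ, hμ, he, hroot⟩ := exists_eigenbasis (R γ) hsep
  have hne : ∀ i, μ i ≠ 0 := by
    intro i h0
    have h1 := he i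
    rw [h0, zero_smul] at h1
    exact Rne (R := R) γ (e.ne_zero i) h1
  have hc : χ γ ≠ 0 := χne (χ := χ) γ
  have hdual : ∀ i, ∃ j, μ i * μ j = χ γ := by
    intro i
    by_contra hcon
    push Not at hcon
    apply e.ne_zero i
    apply hnd
    intro w
    rw [← e.sum_repr w, map_sum]
    refine Finset.sum_eq_zero fun j _ => ?_
    rw [map_smul]
    by_cases h0 : ω (e i) (e j) = 0
    · rw [h0, smul_zero]
    exfalso
    apply hcon j
    have h2 := hωR γ (e i) (e j)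
    rw [he, he, map_smul, map_smul, LinearMap.smul_apply, smul_eq_mul, smul_eq_mul,
      ← mul_assoc] at h2
    rw [mul_comm]
    exact mul_right_cancel₀ h0 h2
  have hpow : ∀ (x c' : Kˣ) (c'' : K), (c' : K) = c'' → IsOfFinOrder (x / c') →
      ∃ m : ℕ, 0 < m ∧ (x : K) ^ m = c'' ^ m := by
    intro x c' c'' h1 h2
    obtain ⟨m, hm, h3⟩ := isOfFinOrder_iff_pow_eq_one.1 h2
    rw [div_pow, div_eq_one] at h3
    refine ⟨m, hm, ?_⟩
    rw [← h1, ← Units.val_pow_eq_pow_val, h3, Units.val_pow_eq_pow_val]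
  have hsq : ∀ i, ∀ m : ℕ, 0 < m → (μ i * μ i) ^ m ≠ χ γ ^ m := by
    intro i m hm h0
    rcases h.2 _ _ _ _ (hroot i) (hroot i) (hroot i) (hroot i) ⟨m, hm, by
      rw [mul_assoc (μ i * μ i), mul_pow, h0, ← pow_add, two_mul]⟩ with h1 | h1 | h1 <;>
    exact h.1 _ (hroot i) h1
  refine ⟨n, e, fun i => Units.mk0 (μ i) (hne i), Units.mk0 (χ γ) hc, fun i => he i, rfl,
    fun i j hij => ?_, fun i hi => ?_, fun i j k l hh => ?_⟩
  · obtain ⟨j', hj'⟩ := hdual j
    obtain ⟨m, hm, h1⟩ := isOfFinOrder_iff_pow_eq_one.1 hij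
    rw [div_pow, div_eq_one] at h1
    have h2 : μ i ^ m = μ j ^ m := by
      have h3 := congrArg Units.val h1
      rwa [Units.val_pow_eq_pow_val, Units.val_pow_eq_pow_val] at h3
    have h3 : (μ i * μ j' * μ i * μ j') ^ m = χ γ ^ (2 * m) := by
      have h4 : (μ i * μ j') ^ m = χ γ ^ m := by rw [mul_pow, h2, ← mul_pow, hj']
      rw [mul_assoc (μ i * μ j'), mul_pow, h4, ← pow_add, two_mul]
    have h5 : μ i * μ j' = χ γ := by
      rcases h.2 _ _ _ _ (hroot i) (hroot j') (hroot i) (hroot j') ⟨m, hm, h3⟩ with h6 | h6 | h6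
      · exact h6
      · exact absurd h6 (h.1 _ (hroot i))
      · exact h6
    exact hμ (mul_right_cancel₀ (hne j') (h5.trans hj'.symm))
  · obtain ⟨m, hm, h1⟩ := hpow _ _ _ rfl hi
    exact hsq i m hm h1
  · obtain ⟨m, hm, h1⟩ := hpow _ _ _ rfl hh
    have h2 : (μ i * μ j * μ k * μ l) ^ m = χ γ ^ (2 * m) := by
      rw [two_mul, pow_add, ← mul_pow]
      exact h1
    have key : ∀ a b : Fin n, μ a * μ b = χ γ → IsOfFinOrder
        (Units.mk0 (μ a) (hne a) * Units.mk0 (μ b) (hne b) / Units.mk0 (χ γ) hc) := by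
      intro a b hab
      have h3 : Units.mk0 (μ a) (hne a) * Units.mk0 (μ b) (hne b) = Units.mk0 (χ γ) hc :=
        Units.ext hab
      rw [h3, div_self']
      exact IsOfFinOrder.one
    rcases h.2 _ _ _ _ (hroot i) (hroot j) (hroot k) (hroot l) ⟨m, hm, h2⟩ with h3 | h3 | h3
    · exact Or.inl (key _ _ h3)
    · exact Or.inr (Or.inl (key _ _ h3))
    · exact Or.inr (Or.inr (key _ _ h3))

end basis

theorem bcb_anti {k Ω V : Type} [Field k] [Field Ω] [Algebra k Ω] [AddCommGroup V] [Module k V]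
    [FiniteDimensional k V] (ω : V →ₗ[k] V →ₗ[k] k) (h : ∀ u v, ω u v = -ω v u) :
    ∀ u v, bcb Ω ω u v = -bcb Ω ω v u := by
  have h1 : bcb Ω ω = -(bcb Ω ω).flip := by
    let b := Module.finBasis k V
    refine (b.baseChange Ω).ext fun i => (b.baseChange Ω).ext fun l => ?_
    rw [LinearMap.neg_apply, LinearMap.neg_apply, LinearMap.flip_apply, Basis.baseChange_apply,
      Basis.baseChange_apply, bcb_one, bcb_one, h, map_neg]
  intro u v
  exact congrArg (fun F : (Ω ⊗[k] V) →ₗ[Ω] (Ω ⊗[k] V) →ₗ[Ω] Ω => F u v) h1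

section main

variable {ℓ : ℕ} [Fact ℓ.Prime] (A : AbelianVariety ℓ)

theorem form_alternating :
    ∀ v, bcb (AlgebraicClosure ℚ_[ℓ]) (bcb ℚ_[ℓ] A.pol) v v = 0 := by
  have h0 : ∀ u v, A.pol u v = -A.pol v u := by
    intro u v
    have h1 := A.alternating (u + v)
    simp only [map_add, LinearMap.add_apply, A.alternating, zero_add, add_zero] at h1
    exact eq_neg_of_add_eq_zero_left (by rw [← h1]; ring)
  have h1 := bcb_anti (Ω := AlgebraicClosure ℚ_[ℓ]) _ (bcb_anti (Ω := ℚ_[ℓ]) _ h0)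
  intro v
  exact self_eq_neg.1 (h1 v v)

theorem form_nondegenerate :
    ∀ u, (∀ v, bcb (AlgebraicClosure ℚ_[ℓ]) (bcb ℚ_[ℓ] A.pol) u v = 0) → u = 0 := by
  have hl1 : ∀ u, (∀ v, bcb ℚ_[ℓ] A.pol u v = 0) → u = 0 :=
    fun u hu => bcb_nondeg_left A.pol A.nondegenerate
      (left_nondeg A.pol A.alternating A.nondegenerate) u hu
  have hr1 : ∀ u, (∀ v, bcb ℚ_[ℓ] A.pol v u = 0) → u = 0 :=
    fun u hu => bcb_nondeg_right A.pol A.nondegenerate
      (left_nondeg A.pol A.alternating A.nondegenerate) u hu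
  exact fun u hu => bcb_nondeg_left (bcb ℚ_[ℓ] A.pol) hr1 hl1 u hu

theorem form_invariant : ∀ g u v, bcb (AlgebraicClosure ℚ_[ℓ]) (bcb ℚ_[ℓ] A.pol) (A.R g u)
    (A.R g v) = A.ψ g * bcb (AlgebraicClosure ℚ_[ℓ]) (bcb ℚ_[ℓ] A.pol) u v :=
  bcb_inv (Ω := AlgebraicClosure ℚ_[ℓ]) A.ρ A.χ (bcb ℚ_[ℓ] A.pol) A.invariant

theorem exists_pairs {γ : A.Γ} (h : HasOnlyPairs A γ) :
    ∃ (n : ℕ) (e : Basis (Fin n) (AlgebraicClosure ℚ_[ℓ])
      (AlgebraicClosure ℚ_[ℓ] ⊗[ℚ_[ℓ]] (ℚ_[ℓ] ⊗[ℚ] A.W)))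
      (v : Fin n → (AlgebraicClosure ℚ_[ℓ])ˣ) (c : (AlgebraicClosure ℚ_[ℓ])ˣ),
      Pairs A.R A.ψ γ e v c := by
  have hch : (A.R γ).charpoly =
      (A.ρ γ).charpoly.map (algebraMap ℚ_[ℓ] (AlgebraicClosure ℚ_[ℓ])) := by
    change ((A.ρ γ).baseChange (AlgebraicClosure ℚ_[ℓ])).charpoly = _
    rw [LinearMap.charpoly_baseChange]
  refine exists_pairs_gen γ ?_ ?_ _ (form_nondegenerate A) (form_invariant A)
  · rw [hch]
    exact h.1.map
  · rw [hch]
    exact h.2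

/-- **The main theorem.** -/
theorem mumfordTate_of_onlyPairs {γ : A.Γ} (h : HasOnlyPairs A γ) (hpl : PlanesAreSymplectic A) :
    (CentreTheoremHolds A → MumfordTateHolds A) ∧
      (IsOfSymplecticType A → MumfordTateHoldsStrongly A) := by
  obtain ⟨n, e, v, c, hP⟩ := exists_pairs A h
  have hsimple : ∀ U, StronglyIrreducible A.R U → 2 ≤ finrank (AlgebraicClosure ℚ_[ℓ]) U →
      HasSimpleRatios A.R A.ψ U := fun U hU h2 =>
    simple_of_pairs hP _ (form_alternating A) (form_nondegenerate A) (form_invariant A) hU h2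
  refine ⟨fun hcen => ?_, fun hsym => ?_⟩
  · exact Pool.Agent.Y144.MT.mt_of_one ℓ A.per A.pol A.alternating A.nondegenerate A.hodge A.ρ A.χ
      A.invariant A.semisimple A.faltings hcen
      (fun ω hl hinv hpr U hU h2 => one_of_ratios ω hl hinv hpr hU h2 (hsimple U hU h2))
      (noSelfDualLines_of_pairs hP)
      (noProperTwists_of_pairs hP _ (form_nondegenerate A) (form_invariant A) hpl)
  · exact Pool.Agent.Y144.MT.mt_strong_of_one ℓ A.per A.pol A.alternating A.nondegenerate A.hodge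
      A.ρ A.χ A.invariant A.semisimple A.faltings hsym
      (fun ω hl hinv hpr U hU h2 => one_of_ratios ω hl hinv hpr hU h2 (hsimple U hU h2))

end main

section fields

variable {E K : Type} [Field E] [NumberField E] [IsCMField E] [Field K] [NumberField K]
  [IsCMField K]

theorem transitiveOver_of_quadratic (hK : finrank ℚ K = 2) (κ : K →+* ℂ) (ι : K →+* E) :
    IsTransitiveOver κ ι := by
  intro φ φ' hφ hφ'
  obtain ⟨σ, hσ⟩ := Pool.Agent.H977R3.CM.exists_aut_emb φ φ'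
  refine ⟨σ, hσ, fun θ h1 h2 => ?_⟩
  rcases Pool.Agent.Q29.OS.embedding_quadratic hK κ (θ.comp ι) with h | h
  · exact absurd h h1
  · exact absurd h h2

theorem transitiveOver_of_double {κ : K →+* ℂ} {ι : K →+* E} {r : ℕ}
    (hdeg : finrank ℚ E = finrank ℚ K * r) (hr : 2 ≤ r) (h : IsDoublyTransitiveOver κ ι) :
    IsTransitiveOver κ ι := by
  classical
  intro φ φ' hφ hφ'
  have hcard := card_above κ ι hdeg
  have _ : Nontrivial (HQ.Above κ ι) := Fintype.one_lt_card_iff_nontrivial.1 (by rw [hcard]; omega)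
  obtain ⟨ψ, hψ⟩ := exists_ne (⟨φ, hφ⟩ : HQ.Above κ ι)
  obtain ⟨ψ', hψ'⟩ := exists_ne (⟨φ', hφ'⟩ : HQ.Above κ ι)
  obtain ⟨σ, h1, -, h3⟩ := h φ ψ.1 φ' ψ'.1 hφ ψ.2 hφ' ψ'.2
    (fun h => hψ (Subtype.ext h.symm)) fun h => hψ' (Subtype.ext h.symm)
  exact ⟨σ, h1, h3⟩

theorem relationsOver_of_good (Z : WN E) (ι : K →+* E) {r : ℕ} (h : IsGoodOver ι r Z.q Z.x)
    (κ : K →+* ℂ) : HQ.Stm.RelationsOver κ ι Z.q Z.x := by
  obtain ⟨hdeg, hr, h⟩ := h
  rcases h with ⟨h1, h2, h3⟩ | ⟨h1, h2⟩ | h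
  · have h4 : IsTransitiveOver κ ι := by
      rcases h3 with h3 | h3
      · exact transitiveOver_of_quadratic h3 κ ι
      · exact h3 κ
    exact relationsOver_of_simple Z κ ι h4 (isSimpleL_of_prime κ ι h2 hdeg h4) h1
  · exact relationsOver_of_simple Z κ ι
      (transitiveOver_of_double hdeg (by omega) (h2 κ)) (isSimpleL_of_two κ ι (h2 κ)) h1
  · exact h κ

/-- The roots of the minimal polynomial. -/
theorem exists_emb (Ω : Type) [Field Ω] [CharZero Ω] [IsAlgClosed Ω] (π : E)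
    (g : AlgebraicClosure ℚ →ₐ[ℚ] Ω) {x : Ω}
    (hx : ((minpoly ℚ π).map (algebraMap ℚ Ω)).IsRoot x) :
    ∃ ψ : E →ₐ[ℚ] AlgebraicClosure ℚ, g (ψ π) = x := by
  have hint : IsIntegral ℚ π := Algebra.IsIntegral.isIntegral π
  have h1 : x ∈ (minpoly ℚ π).rootSet Ω := by
    rw [Polynomial.mem_rootSet]
    refine ⟨minpoly.ne_zero hint, ?_⟩
    rwa [Polynomial.IsRoot, Polynomial.eval_map_algebraMap] at hx
  have h2 := (IsAlgClosed.splits ((minpoly ℚ π).map
    (algebraMap ℚ (AlgebraicClosure ℚ)))).image_rootSet g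
  rw [← h2] at h1
  obtain ⟨y, hy, rfl⟩ := h1
  have h3 := Algebra.IsAlgebraic.range_eval_eq_rootSet_minpoly (F := ℚ) (K := E)
    (AlgebraicClosure ℚ) π
  rw [← h3] at hy
  obtain ⟨ψ, hψ⟩ := hy
  exact ⟨ψ, by rw [← hψ]⟩

theorem isAlgebraic_closure : Algebra.IsAlgebraic ℚ (AlgebraicClosure ℚ) := by
  have h := AlgebraicClosure.isAlgebraic ℚ
  convert h
  · rfl
  · exact Subsingleton.elim _ _

theorem onlyPairs_of_good (Z : WN E) (ι : K →+* E) {r : ℕ} (h : IsGoodOver ι r Z.q Z.x)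
    (Ω : Type) [Field Ω] [CharZero Ω] [IsAlgClosed Ω] :
    OnlyPairs ((minpoly ℚ Z.x).map (algebraMap ℚ Ω)) (Z.q : Ω) := by
  have hrel := relationsOver_of_good Z ι h
  obtain ⟨hdeg, hr, -⟩ := h
  have _ := isAlgebraic_closure
  let g : AlgebraicClosure ℚ →ₐ[ℚ] Ω := IsAlgClosed.lift
  let j : AlgebraicClosure ℚ →ₐ[ℚ] ℂ := IsAlgClosed.lift
  have key : ∀ (f : Fin 4 → (E →ₐ[ℚ] AlgebraicClosure ℚ)) (m : ℕ), 0 < m →
      (∏ i, g (f i Z.x)) ^ m = (Z.q : Ω) ^ (2 * m) →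
      ∃ i, i ≠ 0 ∧ g (f 0 Z.x) * g (f i Z.x) = Z.q := by
    intro f m hm hh
    have h1 : (∏ i, f i Z.x) ^ m = (Z.q : AlgebraicClosure ℚ) ^ (2 * m) := by
      apply g.injective
      rw [map_pow, map_pow, map_prod, map_natCast]
      exact hh
    have h2 := congrArg j h1
    rw [map_pow, map_pow, map_prod, map_natCast] at h2
    obtain ⟨i, hi, h3⟩ := four Z ι hdeg hr hrel
      (fun i => ((j : AlgebraicClosure ℚ →+* ℂ)).comp (f i : E →+* AlgebraicClosure ℚ)) hm h2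
    refine ⟨i, hi, ?_⟩
    have h4 := Z.hw (((j : AlgebraicClosure ℚ →+* ℂ)).comp (f 0 : E →+* AlgebraicClosure ℚ))
    rw [← h3] at h4
    have h5 : j (f 0 Z.x) * j (f i Z.x) = Z.q := h4
    rw [← map_mul]
    rw [← map_mul] at h5
    have h6 : f 0 Z.x * f i Z.x = (Z.q : AlgebraicClosure ℚ) := by
      apply j.injective
      change j (f 0 Z.x * f i Z.x) = j (Z.q : AlgebraicClosure ℚ)
      rw [h5, map_natCast]
    rw [h6, map_natCast]
  constructor
  · intro x hx hxx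
    obtain ⟨ψ, rfl⟩ := exists_emb Ω Z.x g hx
    have h1 : ψ Z.x * ψ Z.x = (Z.q : AlgebraicClosure ℚ) := by
      apply g.injective
      rw [map_mul, map_natCast]
      exact hxx
    have h2 := congrArg j h1
    rw [map_mul, map_natCast] at h2
    obtain ⟨i, hi, h3⟩ := four Z ι hdeg hr hrel
      (fun _ => ((j : AlgebraicClosure ℚ →+* ℂ)).comp (ψ : E →+* AlgebraicClosure ℚ))
      (m := 1) one_pos (by
        rw [Finset.prod_const, Finset.card_univ, Fintype.card_fin]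
        change (j (ψ Z.x) ^ 4) ^ 1 = _
        rw [pow_one, mul_one, ← h2]
        ring)
    exact HQ.conj_ne_K _ h3.symm
  · rintro x y z w hx hy hz hw ⟨m, hm, h1⟩
    obtain ⟨ψ₁, rfl⟩ := exists_emb Ω Z.x g hx
    obtain ⟨ψ₂, rfl⟩ := exists_emb Ω Z.x g hy
    obtain ⟨ψ₃, rfl⟩ := exists_emb Ω Z.x g hz
    obtain ⟨ψ₄, rfl⟩ := exists_emb Ω Z.x g hw
    obtain ⟨i, hi, h2⟩ := key ![ψ₁, ψ₂, ψ₃, ψ₄] m hm (by
      rw [Fin.prod_univ_four]
      exact h1)
    fin_cases i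
    · exact absurd rfl hi
    · exact Or.inl h2
    · exact Or.inr (Or.inl h2)
    · exact Or.inr (Or.inr h2)

/-- **Weil numbers with relations over a CM subfield.** -/
theorem hasOnlyPairs_of_good {q r : ℕ} {π : E} (hq : 0 < q)
    (hπ : ∀ φ : E →+* ℂ, ‖φ π‖ ^ 2 = (q : ℝ)) (ι : K →+* E) (h : IsGoodOver ι r q π)
    {ℓ : ℕ} [Fact ℓ.Prime] (A : AbelianVariety ℓ) (γ : A.Γ) (hγ : IsFrobeniusFor A γ q π) :
    HasOnlyPairs A γ := by
  let Z : WN E := ⟨q, π, Nat.cast_ne_zero.2 hq.ne', fun φ => by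
    have h1 : φ π * ComplexEmbedding.conjugate φ π = ((‖φ π‖ ^ 2 : ℝ) : ℂ) := by
      change φ π * (starRingEnd ℂ) (φ π) = _
      rw [Complex.mul_conj, Complex.normSq_eq_norm_sq]
    rw [h1, hπ]
    push_cast
    rfl⟩
  have h1 := onlyPairs_of_good Z ι h (AlgebraicClosure ℚ_[ℓ])
  constructor
  · rw [hγ.2]
    exact (minpoly.irreducible (Algebra.IsIntegral.isIntegral π)).separable.map
  · rw [hγ.2, hγ.1, map_natCast, Polynomial.map_map]
    convert h1 using 2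
    exact Subsingleton.elim _ _

end fields

end

end Pool.Agent.U124.FT
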