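import Mathlib
import Pool.Agent.Y126.Notions
import Pool.Agent.U124.FT.Setup

/-!
# Tate modules of abelian varieties over finitely generated fields: definitions
-/

set_option autoImplicit false

namespace Pool.Agent.U124.FT

open Module TensorProduct NumberField Pool.Agent.Y126.Notions

/-- The rational Tate module `V` of an abelian variety over a finitely generated field of any
characteristic different from `ℓ`, with the action `ρ` of the Galois group `Γ`, the cyclotomic
character `χ` and the Weil pairing `ω` of a polarization.  The last field is the theorem that `ρ` is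
semisimple, on all subgroups of finite index (Tate, Zarhin, Mori, Faltings). -/
structure TateModule (ℓ : ℕ) [Fact ℓ.Prime] where
  V : Type
  Γ : Type
  [instV : AddCommGroup V]
  [instVQ : Module ℚ_[ℓ] V]
  [instVF : FiniteDimensional ℚ_[ℓ] V]
  [instΓ : Group Γ]
  ρ : Representation ℚ_[ℓ] Γ V
  χ : Γ →* ℚ_[ℓ]
  ω : V →ₗ[ℚ_[ℓ]] V →ₗ[ℚ_[ℓ]] ℚ_[ℓ]
  alternating : ∀ v, ω v v = 0
  nondegenerate : ∀ u, (∀ v, ω v u = 0) → u = 0
  invariant : ∀ s u v, ω (ρ s u) (ρ s v) = χ s * ω u v
  semisimple : PotentiallySemisimple ρ

attribute [instance] TateModule.instV TateModule.instVQ TateModule.instVF TateModule.instΓ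

variable {ℓ : ℕ} [Fact ℓ.Prime]

namespace TateModule

/-- The action of the Galois group, with coefficients in an algebraic closure of `ℚ_ℓ`. -/
noncomputable def R (M : TateModule ℓ) :
    Representation (AlgebraicClosure ℚ_[ℓ]) M.Γ (AlgebraicClosure ℚ_[ℓ] ⊗[ℚ_[ℓ]] M.V) :=
  extend (AlgebraicClosure ℚ_[ℓ]) M.ρ

/-- The cyclotomic character, with values in an algebraic closure of `ℚ_ℓ`. -/
noncomputable def ψ (M : TateModule ℓ) : M.Γ →* AlgebraicClosure ℚ_[ℓ] :=
  (algebraMap ℚ_[ℓ] (AlgebraicClosure ℚ_[ℓ]) : ℚ_[ℓ] →* _).comp M.χ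

/-- On all powers of `A` all Tate classes are linear combinations of exterior products of Tate
classes of degree two and of Weil classes. -/
def TateClassesFromWeilClasses (M : TateModule ℓ) : Prop :=
  GeneratedByWeilClasses (AlgebraicClosure ℚ_[ℓ]) M.ρ M.χ M.ω

/-- On all powers of `A` all Tate classes are linear combinations of products of Tate classes of
degree two (which are classes of divisors), so that the Tate conjecture holds for them. -/
def TateClassesFromDivisors (M : TateModule ℓ) : Prop :=
  GeneratedInDegreeTwo M.ρ M.χ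

/-- The strongly irreducible subspaces of dimension two are symplectic. -/
def PlanesAreSymplectic (M : TateModule ℓ) : Prop :=
  ∀ U, StronglyIrreducible M.R U → finrank (AlgebraicClosure ℚ_[ℓ]) U = 2 →
    IsSymplectic M.R M.ψ U

/-- All strongly irreducible subspaces are symplectic. -/
def IsOfSymplecticType (M : TateModule ℓ) : Prop :=
  ∀ U, StronglyIrreducible M.R U → IsSymplectic M.R M.ψ U

/-- There are no Weil families: no nonempty families of strongly irreducible subspaces, never dual
to each other, such that a subgroup of finite index acts on the tensor product of their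
determinants through the power of `χ` whose exponent is half of the sum of the dimensions. -/
def HasNoWeilFamily (M : TateModule ℓ) : Prop :=
  ∀ (Q : Type) [Fintype Q] [Nonempty Q]
    (L : Q → Submodule (AlgebraicClosure ℚ_[ℓ]) (AlgebraicClosure ℚ_[ℓ] ⊗[ℚ_[ℓ]] M.V)),
    ¬ IsWeilFamily M.R M.ψ L

/-- The element `γ` (a Frobenius element at a place of good reduction) has distinct eigenvalues on
the Tate module and the relations between four of them are those of the pairs. -/
def HasOnlyPairs (M : TateModule ℓ) (γ : M.Γ) : Prop :=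
  (M.ρ γ).charpoly.Separable ∧
    OnlyPairs ((M.ρ γ).charpoly.map (algebraMap ℚ_[ℓ] (AlgebraicClosure ℚ_[ℓ])))
      (algebraMap ℚ_[ℓ] (AlgebraicClosure ℚ_[ℓ]) (M.χ γ))

/-- The characteristic polynomial of `γ` on the Tate module is the minimal polynomial of `π`, and
`χ γ = q`. -/
def IsFrobeniusFor {E : Type} [Field E] [NumberField E] (M : TateModule ℓ) (γ : M.Γ) (q : ℕ)
    (π : E) : Prop :=
  M.χ γ = q ∧ (M.ρ γ).charpoly = (minpoly ℚ π).map (algebraMap ℚ ℚ_[ℓ])

end TateModule

end Pool.Agent.U124.FT
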