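import Mathlib
import Pool.Agent.U124.FT.TateDef
import Pool.Agent.U124.FT.Main
import Pool.Agent.R855.MT.One

/-!
# The Tate conjecture: proofs
-/

set_option autoImplicit false

namespace Pool.Agent.U124.FT.TateModule

open Module TensorProduct NumberField Pool.Agent.Y126.Notions
open Pool.Agent.H204R3.SP Pool.Agent.H204R3.GP Pool.Agent.TH118.MT Pool.Agent.W522.U

variable {ℓ : ℕ} [Fact ℓ.Prime]

theorem form_alternating (M : TateModule ℓ) :
    ∀ v, bcb (AlgebraicClosure ℚ_[ℓ]) M.ω v v = 0 := by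
  have h0 : ∀ u v, M.ω u v = -M.ω v u := by
    intro u v
    have h1 := M.alternating (u + v)
    simp only [map_add, LinearMap.add_apply, M.alternating, zero_add, add_zero] at h1
    exact eq_neg_of_add_eq_zero_left (by rw [← h1]; ring)
  have h1 := bcb_anti (Ω := AlgebraicClosure ℚ_[ℓ]) _ h0
  intro v
  exact self_eq_neg.1 (h1 v v)

theorem form_nondegenerate (M : TateModule ℓ) :
    ∀ u, (∀ v, bcb (AlgebraicClosure ℚ_[ℓ]) M.ω u v = 0) → u = 0 := fun u hu =>
  bcb_nondeg_left M.ω M.nondegenerate (left_nondeg M.ω M.alternating M.nondegenerate) u hu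

theorem form_invariant (M : TateModule ℓ) : ∀ g u v,
    bcb (AlgebraicClosure ℚ_[ℓ]) M.ω (M.R g u) (M.R g v) =
      M.ψ g * bcb (AlgebraicClosure ℚ_[ℓ]) M.ω u v :=
  bcb_inv (Ω := AlgebraicClosure ℚ_[ℓ]) M.ρ M.χ M.ω M.invariant

theorem exists_pairs {M : TateModule ℓ} {γ : M.Γ} (h : M.HasOnlyPairs γ) :
    ∃ (n : ℕ) (e : Basis (Fin n) (AlgebraicClosure ℚ_[ℓ])
      (AlgebraicClosure ℚ_[ℓ] ⊗[ℚ_[ℓ]] M.V))
      (v : Fin n → (AlgebraicClosure ℚ_[ℓ])ˣ) (c : (AlgebraicClosure ℚ_[ℓ])ˣ),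
      Pairs M.R M.ψ γ e v c := by
  have hch : (M.R γ).charpoly =
      (M.ρ γ).charpoly.map (algebraMap ℚ_[ℓ] (AlgebraicClosure ℚ_[ℓ])) := by
    change ((M.ρ γ).baseChange (AlgebraicClosure ℚ_[ℓ])).charpoly = _
    rw [LinearMap.charpoly_baseChange]
  refine exists_pairs_gen γ ?_ ?_ _ M.form_nondegenerate M.form_invariant
  · rw [hch]
    exact h.1.map
  · rw [hch]
    exact h.2

/-- **The main theorem.** -/
theorem tate_of_onlyPairs (M : TateModule ℓ) {γ : M.Γ} (h : M.HasOnlyPairs γ)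
    (hpl : M.PlanesAreSymplectic) :
    M.TateClassesFromWeilClasses ∧ (M.HasNoWeilFamily → M.TateClassesFromDivisors) := by
  obtain ⟨n, e, v, c, hP⟩ := exists_pairs h
  have hsimple : ∀ U, StronglyIrreducible M.R U → 2 ≤ finrank (AlgebraicClosure ℚ_[ℓ]) U →
      HasSimpleRatios M.R M.ψ U := fun U hU h2 =>
    simple_of_pairs hP _ M.form_alternating M.form_nondegenerate M.form_invariant hU h2
  have hpr : HasProj (bcr M.ρ (AlgebraicClosure ℚ_[ℓ])) := hasProj_bcr M.ρ _ M.semisimple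
  exact Pool.Agent.Y126.Glue.conclusion ℓ M.ρ M.χ M.ω M.alternating M.nondegenerate
    M.invariant M.semisimple (fun U hU h2 => one_of_ratios (bcb _ M.ω) M.form_nondegenerate
      M.form_invariant hpr hU h2 (hsimple U hU h2))
    (noSelfDualLines_of_pairs hP)
    (noProperTwists_of_pairs hP _ M.form_nondegenerate M.form_invariant hpl)

/-- There are no Weil families in the symplectic case. -/
theorem noWeilFamily_of_symplectic (M : TateModule ℓ) (hsym : M.IsOfSymplecticType) :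
    M.HasNoWeilFamily := by
  intro Q _ hQ L hL
  obtain ⟨q⟩ := hQ
  obtain ⟨Δ, hΔ, B, hB, -, hBe⟩ := hsym (L q) (hL.1 q)
  exact hL.2.1 q q ⟨Δ, hΔ, B, hB, hBe⟩

theorem divisors_of_symplectic (M : TateModule ℓ) {γ : M.Γ} (h : M.HasOnlyPairs γ)
    (hsym : M.IsOfSymplecticType) : M.TateClassesFromDivisors :=
  (tate_of_onlyPairs M h fun U hU _ => hsym U hU).2 (noWeilFamily_of_symplectic M hsym)

theorem hasOnlyPairs_of_good {E K : Type} [Field E] [NumberField E] [IsCMField E] [Field K]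
    [NumberField K] [IsCMField K] {q r : ℕ} {π : E} (hq : 0 < q)
    (hπ : ∀ φ : E →+* ℂ, ‖φ π‖ ^ 2 = (q : ℝ)) (ι : K →+* E) (h : IsGoodOver ι r q π)
    (M : TateModule ℓ) (γ : M.Γ) (hγ : M.IsFrobeniusFor γ q π) :
    M.HasOnlyPairs γ := by
  let Z : WN E := ⟨q, π, Nat.cast_ne_zero.2 hq.ne', fun φ => by
    have h1 : φ π * ComplexEmbedding.conjugate φ π = ((‖φ π‖ ^ 2 : ℝ) : ℂ) := by
      change φ π * (starRingEnd ℂ) (φ π) = _
      rw [Complex.mul_conj, Complex.normSq_eq_norm_sq]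
    rw [h1, hπ]
    push_cast
    rfl⟩
  have h1 := onlyPairs_of_good Z ι h (AlgebraicClosure ℚ_[ℓ])
  constructor
  · rw [hγ.2]
    exact (minpoly.irreducible (Algebra.IsIntegral.isIntegral π)).separable.map
  · rw [hγ.2, hγ.1, map_natCast, Polynomial.map_map]
    convert h1 using 2
    exact Subsingleton.elim _ _

end Pool.Agent.U124.FT.TateModule
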